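import Pool.Agent.V8H1.MF.Gal
import Pool.Agent.W189.NF.LocalPoly

/-!
# Multiquadratic fields: finiteness of the group of the points
-/

set_option autoImplicit false
set_option linter.unusedSectionVars false

open NumberField Module WeierstrassCurve

namespace Pool.Agent.V8H1.MF

open scoped symmDiff
open Pool.Agent.W189.NF (ptMap ptMap_injective)

/-- the quadratic twist by `1 + 4 j` of `y² + x y = x³ - x² - 2 x - 1` -/
def CC (k : Type*) [CommRing k] (j : k) : WeierstrassCurve k :=
  ⟨1, -(1 + 3 * j), 0, -2 * (1 + 4 * j) ^ 2, -(1 + 4 * j) ^ 3⟩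

lemma CC_eq {k : Type*} [Field k] (j x y : k) : (CC k j).toAffine.Equation x y ↔
    y ^ 2 + x * y = x ^ 3 - (1 + 3 * j) * x ^ 2 - 2 * (1 + 4 * j) ^ 2 * x - (1 + 4 * j) ^ 3 := by
  rw [WeierstrassCurve.Affine.equation_iff]
  unfold CC
  simp only
  constructor <;> intro h <;> linear_combination h

lemma CC_Δ (k : Type*) [CommRing k] (j : k) : (CC k j).Δ = -343 * (1 + 4 * j) ^ 6 := by
  unfold CC WeierstrassCurve.Δ WeierstrassCurve.b₈ WeierstrassCurve.b₆ WeierstrassCurve.b₄
    WeierstrassCurve.b₂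
  ring

lemma CC_map {k l : Type*} [CommRing k] [CommRing l] (φ : k →+* l) (j : k) :
    (CC k j).map φ = CC l (φ j) := by
  have h2 : φ 2 = 2 := map_ofNat φ 2
  have h3 : φ 3 = 3 := map_ofNat φ 3
  have h4 : φ 4 = 4 := map_ofNat φ 4
  unfold CC
  ext
  · simp
  · simp [h3]
  · simp
  · simp [h2, h4]
  · simp [h4]

/-- the two twists are isomorphic over a field where the quotient is a square -/
lemma CC_tw {k : Type*} [Field k] (h2 : (2 : k) ≠ 0) {i j a x y : k}
    (h : 1 + 4 * j = (1 + 4 * i) * a ^ 2)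
    (he : y ^ 2 + x * y = x ^ 3 - (1 + 3 * i) * x ^ 2 - 2 * (1 + 4 * i) ^ 2 * x - (1 + 4 * i) ^ 3) :
    (a ^ 3 * y + a ^ 2 * ((a - 1) / 2) * x) ^ 2 + (a ^ 2 * x) * (a ^ 3 * y + a ^ 2 * ((a - 1) / 2) * x)
      = (a ^ 2 * x) ^ 3 - (1 + 3 * j) * (a ^ 2 * x) ^ 2 - 2 * (1 + 4 * j) ^ 2 * (a ^ 2 * x) -
        (1 + 4 * j) ^ 3 := by
  have h4 : (4 : k) ≠ 0 := by
    have : (4 : k) = 2 ^ 2 := by norm_num
    rw [this]
    exact pow_ne_zero 2 h2
  have hj : j = ((1 + 4 * i) * a ^ 2 - 1) / 4 := by
    rw [← h]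
    field_simp
    ring
  rw [h, hj]
  field_simp
  linear_combination 16 * a ^ 6 * he

/-- the change of variables -/
lemma CC_vc {k : Type*} [Field k] (h2 : (2 : k) ≠ 0) {i j a : k} (ha : a ≠ 0)
    (h : 1 + 4 * j = (1 + 4 * i) * a ^ 2) :
    CC k i = (⟨Units.mk0 a ha, 0, (a - 1) / 2, 0⟩ : VariableChange k) • CC k j := by
  have h4 : (4 : k) ≠ 0 := by
    have : (4 : k) = 2 ^ 2 := by norm_num
    rw [this]
    exact pow_ne_zero 2 h2
  have hj : j = ((1 + 4 * i) * a ^ 2 - 1) / 4 := by
    rw [← h]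
    field_simp
    ring
  ext
  · rw [variableChange_a₁]
    simp only [CC, Units.val_inv_eq_inv_val, Units.val_mk0]
    field_simp
    ring
  · rw [variableChange_a₂]
    simp only [CC, Units.val_inv_eq_inv_val, Units.val_mk0]
    rw [hj]
    field_simp
    ring
  · rw [variableChange_a₃]
    simp only [CC, Units.val_inv_eq_inv_val, Units.val_mk0]
    field_simp
    ring
  · rw [variableChange_a₄]
    simp only [CC, Units.val_inv_eq_inv_val, Units.val_mk0]
    rw [h]
    field_simp
    ring
  · rw [variableChange_a₆]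
    simp only [CC, Units.val_inv_eq_inv_val, Units.val_mk0]
    rw [h]
    field_simp
    ring

section
variable {F : Type} [Field F] [NumberField F] {n : ℕ} {d : Fin n → ℕ} {s : Fin n → F}

open scoped Classical in
/-- the action on the points -/
noncomputable def act (W : WeierstrassCurve ℚ) (σ : Gal(F/ℚ)) :
    (W.baseChange F).toAffine.Point →+ (W.baseChange F).toAffine.Point :=
  WeierstrassCurve.Affine.Point.map (W' := W.toAffine) (σ : F →ₐ[ℚ] F)

lemma act_some (W : WeierstrassCurve ℚ) (σ : Gal(F/ℚ)) {x y : F}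
    (h : (W.baseChange F).toAffine.Nonsingular x y) :
    ∃ h', act W σ (.some x y h) = .some (σ x) (σ y) h' := ⟨_, rfl⟩

lemma act_mul (W : WeierstrassCurve ℚ) (σ τ : Gal(F/ℚ)) (P : (W.baseChange F).toAffine.Point) :
    act W (σ * τ) P = act W σ (act W τ P) := by
  cases P <;> rfl

lemma act_one (W : WeierstrassCurve ℚ) (P : (W.baseChange F).toAffine.Point) :
    act W 1 P = P := by
  cases P <;> rfl

open scoped Classical in
/-- the eigencomponent -/
noncomputable def comp (s : Fin n → F) (W : WeierstrassCurve ℚ) (T : Finset (Fin n))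
    (P : (W.baseChange F).toAffine.Point) : (W.baseChange F).toAffine.Point :=
  ∑ σ : Gal(F/ℚ), sgT s σ T • act W σ P

open scoped Classical in
lemma comp_sum (h : MQ F d s) (W : WeierstrassCurve ℚ) (P : (W.baseChange F).toAffine.Point) :
    ∑ T : Finset (Fin n), comp s W T P = (2 ^ n : ℤ) • P := by
  unfold comp
  rw [Finset.sum_comm]
  simp_rw [← Finset.sum_smul]
  have h2 : ∀ σ : Gal(F/ℚ), ∑ T : Finset (Fin n), sgT s σ T = ∏ i, (1 + sg s σ i) := by
    intro σ
    rw [Finset.prod_one_add, Finset.powerset_univ]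
    rfl
  simp_rw [h2]
  rw [Finset.sum_eq_single (1 : Gal(F/ℚ))]
  · have h3 : ∀ i : Fin n, 1 + sg s (1 : Gal(F/ℚ)) i = 2 := by
      intro i
      have := sgT_one h {i}
      unfold sgT at this
      rw [Finset.prod_singleton] at this
      rw [this]
      norm_num
    rw [Finset.prod_congr rfl (fun i _ => h3 i), Finset.prod_const, Finset.card_univ,
      Fintype.card_fin, act_one]
  · intro σ _ hσ
    have h5 : ∏ i, (1 + sg s σ i) = 0 := by
      by_contra h5
      apply hσ
      refine sg_inj h fun i => ?_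
      rcases sg_val (s := s) σ i with h6 | h6
      · exact h6
      · exfalso
        apply h5
        refine Finset.prod_eq_zero (Finset.mem_univ i) ?_
        rw [h6]
        norm_num
    rw [h5, zero_smul]
  · intro h6
    exact absurd (Finset.mem_univ _) h6

open scoped Classical in
lemma comp_act (h : MQ F d s) (W : WeierstrassCurve ℚ) (T : Finset (Fin n)) (τ : Gal(F/ℚ))
    (P : (W.baseChange F).toAffine.Point) :
    act W τ (comp s W T P) = sgT s τ T • comp s W T P := by
  classical
  unfold comp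
  rw [map_sum, Finset.smul_sum]
  rw [← Equiv.sum_comp (Equiv.mulLeft τ) fun σ => sgT s τ T • sgT s σ T • act W σ P]
  refine Finset.sum_congr rfl fun σ _ => ?_
  rw [Equiv.coe_mulLeft, map_zsmul, sgT_mul h, act_mul, smul_smul]
  congr 1
  rcases sgT_val (s := s) τ T with h1 | h1 <;> rw [h1] <;> ring

open scoped Classical in
/-- the points of the eigenspaces are finite in number -/
lemma eig_finite (h : MQ F d s) {M j : ℕ} (hM : M = 1 + 4 * j) {T : Finset (Fin n)} {i : ℕ}
    (hi : DD d M T = 1 + 4 * i) (hf : Finite (CC ℚ (i : ℚ)).toAffine.Point) :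
    Set.Finite {P : ((CC ℚ (j : ℚ)).baseChange F).toAffine.Point |
      ∀ τ : Gal(F/ℚ), act (CC ℚ (j : ℚ)) τ P = sgT s τ T • P} := by
  classical
  have hgal := h.gal
  have hM0 : M ≠ 0 := by omega
  obtain ⟨b, hb, h1⟩ := DD_spec (d := d) hM0 h.ne T
  rw [hi, hM] at h1
  have h2 : (2 : F) ≠ 0 := two_ne_zero
  have hb' : (b : F) ≠ 0 := Nat.cast_ne_zero.2 hb
  set t : F := ∏ k ∈ T, s k with ht
  have ht2 : t ^ 2 = ((∏ k ∈ T, d k : ℕ) : F) := by
    rw [ht, ← Finset.prod_pow, Finset.prod_congr rfl (fun k _ => h.sq k), ← Nat.cast_prod]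
  have ht0 : t ≠ 0 := by
    rw [ht, Finset.prod_ne_zero_iff]
    exact fun k _ => h.sne k
  set a : F := t / b with ha
  have ha0 : a ≠ 0 := div_ne_zero ht0 hb'
  have hMa : (1 + 4 * (i : F)) = (1 + 4 * (j : F)) * a ^ 2 := by
    have h3 := congrArg (fun z : ℕ => (z : F)) h1
    push_cast at h3
    rw [ha, div_pow, ht2]
    push_cast
    field_simp
    linear_combination -h3
  have hτt : ∀ τ : Gal(F/ℚ), τ a = (sgT s τ T : F) * a := by
    intro τ
    rw [ha, map_div₀, map_natCast, ht, map_prod, Finset.prod_congr rfl (fun k _ => sg_spec h τ k),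
      Finset.prod_mul_distrib, ← Int.cast_prod]
    unfold sgT
    ring
  have hMne : (1 + 4 * (j : F)) ≠ 0 := by exact_mod_cast (show (1 + 4 * j : ℕ) ≠ 0 by omega)
  have haq : ∃ c : ℚ, algebraMap ℚ F c = a ^ 2 := by
    refine ⟨(1 + 4 * i) / (1 + 4 * j), ?_⟩
    rw [map_div₀]
    simp only [map_add, map_mul, map_one, map_ofNat, map_natCast]
    rw [hMa]
    field_simp
  obtain ⟨c, hc⟩ := haq
  have hfix : ∀ x : F, (∀ τ : Gal(F/ℚ), τ x = x) → ∃ q : ℚ, algebraMap ℚ F q = x := by
    intro x hx
    exact (IsGalois.mem_range_algebraMap_iff_fixed x).2 hx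
  -- the coordinates
  let g : Option (ℚ × ℚ) → Option (F × F) := fun R => R.map fun R =>
    ((algebraMap ℚ F R.1) / a ^ 2,
      ((algebraMap ℚ F R.2) - a ^ 2 * ((a - 1) / 2) * ((algebraMap ℚ F R.1) / a ^ 2)) / a ^ 3)
  let co : ((CC ℚ (j : ℚ)).baseChange F).toAffine.Point → Option (F × F) := fun P =>
    (ptMap _ P).map Subtype.val
  let cq : (CC ℚ (i : ℚ)).toAffine.Point → Option (ℚ × ℚ) := fun P => (ptMap _ P).map Subtype.val
  have hco : Function.Injective co :=
    (Option.map_injective Subtype.val_injective).comp (ptMap_injective _)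
  have hfin : (Set.range (g ∘ cq)).Finite := Set.finite_range _
  refine (hfin.preimage (f := co) hco.injOn).subset ?_
  intro P hP
  rw [Set.mem_preimage]
  cases P with
  | zero => exact ⟨.zero, rfl⟩
  | some x y hxy =>
    have hx : ∀ τ : Gal(F/ℚ), τ x = x ∧ τ (y + x / 2) = (sgT s τ T : F) * (y + x / 2) := by
      intro τ
      have h3 := hP τ
      obtain ⟨h', h4⟩ := act_some (CC ℚ (j : ℚ)) τ hxy
      rw [h4] at h3
      rcases sgT_val (s := s) τ T with h5 | h5
      · rw [h5, one_smul] at h3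
        rw [WeierstrassCurve.Affine.Point.some.injEq] at h3
        rw [map_add, map_div₀, map_ofNat, h3.1, h3.2, h5]
        refine ⟨rfl, by push_cast; ring⟩
      · rw [h5, neg_one_smul, WeierstrassCurve.Affine.Point.neg_some,
          WeierstrassCurve.Affine.Point.some.injEq] at h3
        have h6 := h3.2
        have h7 : ((CC ℚ (j : ℚ)).baseChange F).toAffine.negY x y = -y - x := by
          unfold WeierstrassCurve.Affine.negY
          have : (CC ℚ (j : ℚ)).baseChange F = CC F (j : F) := by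
            have := CC_map (algebraMap ℚ F) (j : ℚ)
            rw [map_natCast] at this
            exact this
          rw [this]
          unfold CC
          simp only
          ring
        rw [h7] at h6
        rw [map_add, map_div₀, map_ofNat, h3.1, h6, h5]
        refine ⟨rfl, by push_cast; ring⟩
    obtain ⟨x₀, hx₀⟩ := hfix x fun τ => (hx τ).1
    obtain ⟨z₀, hz₀⟩ := hfix (a * (y + x / 2)) fun τ => by
      rw [map_mul, (hx τ).2, hτt τ]
      rcases sgT_val (s := s) τ T with h5 | h5 <;> rw [h5] <;> push_cast <;> ring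
    have hE : ((CC ℚ (j : ℚ)).baseChange F).toAffine.Equation x y := hxy.1
    have hE' : (CC F (j : F)).toAffine.Equation x y := by
      have : (CC ℚ (j : ℚ)).baseChange F = CC F (j : F) := by
        have := CC_map (algebraMap ℚ F) (j : ℚ)
        rw [map_natCast] at this
        exact this
      rw [this] at hE
      exact hE
    rw [CC_eq] at hE'
    have h8 := CC_tw h2 hMa hE'
    set x₁ : ℚ := c * x₀ with hx₁
    set y₁ : ℚ := c * z₀ - c * x₀ / 2 with hy₁
    have ex : algebraMap ℚ F x₁ = a ^ 2 * x := by rw [hx₁, map_mul, hc, hx₀]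
    have ey : algebraMap ℚ F y₁ = a ^ 3 * y + a ^ 2 * ((a - 1) / 2) * x := by
      rw [hy₁, map_sub, map_mul, map_div₀, map_mul, hc, hx₀, hz₀, map_ofNat]
      field_simp
      ring
    have h9 : (CC ℚ (i : ℚ)).toAffine.Equation x₁ y₁ := by
      rw [CC_eq]
      apply (algebraMap ℚ F).injective
      simp only [map_add, map_sub, map_mul, map_pow, map_one, map_ofNat, map_natCast]
      rw [ex, ey]
      exact h8
    have hΔ : (CC ℚ (i : ℚ)).Δ ≠ 0 := by
      rw [CC_Δ]
      have : (1 + 4 * (i : ℚ)) ≠ 0 := by positivity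
      have := pow_ne_zero 6 this
      simpa using this
    refine ⟨.some x₁ y₁
      ((WeierstrassCurve.Affine.equation_iff_nonsingular_of_Δ_ne_zero hΔ).1 h9), ?_⟩
    show some (_, _) = some (x, y)
    congr 1
    apply Prod.ext
    · show algebraMap ℚ F x₁ / a ^ 2 = x
      rw [ex]
      field_simp
    · show ((algebraMap ℚ F y₁) - a ^ 2 * ((a - 1) / 2) * ((algebraMap ℚ F x₁) / a ^ 2)) / a ^ 3 = y
      rw [ex, ey]
      field_simp
      ring

/-- the two torsion is finite -/
lemma two_finite {k : Type} [Field k] [CharZero k] (j : k) [DecidableEq k] :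
    Set.Finite {P : (CC k j).toAffine.Point | (2 : ℤ) • P = 0} := by
  set p : Polynomial k := Polynomial.X ^ 3 - Polynomial.C (3 / 4 * (1 + 4 * j)) * Polynomial.X ^ 2 -
    Polynomial.C (2 * (1 + 4 * j) ^ 2) * Polynomial.X - Polynomial.C ((1 + 4 * j) ^ 3) with hp
  have hp0 : p ≠ 0 := by
    have : p.Monic := by
      rw [hp]
      monicity!
    exact this.ne_zero
  have hfin : (p.rootSet k).Finite := Polynomial.rootSet_finite p k
  let co : (CC k j).toAffine.Point → Option (k × k) := fun P => (ptMap _ P).map Subtype.val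
  have hco : Function.Injective co :=
    (Option.map_injective Subtype.val_injective).comp (ptMap_injective _)
  have hfin2 : (insert none ((fun x => some (x, -x / 2)) '' (p.rootSet k))).Finite :=
    (hfin.image _).insert _
  refine (hfin2.preimage (f := co) hco.injOn).subset ?_
  intro P hP
  rw [Set.mem_preimage]
  cases P with
  | zero => exact Set.mem_insert _ _
  | some x y hxy =>
    have h1 : (.some x y hxy : (CC k j).toAffine.Point) = - .some x y hxy := by
      have h2 : (2 : ℤ) • (.some x y hxy : (CC k j).toAffine.Point) = 0 := hP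
      rw [two_zsmul] at h2
      exact eq_neg_of_add_eq_zero_left h2
    rw [WeierstrassCurve.Affine.Point.neg_some, WeierstrassCurve.Affine.Point.some.injEq] at h1
    have h3 : (CC k j).toAffine.negY x y = -y - x := by
      unfold WeierstrassCurve.Affine.negY CC
      simp only
      ring
    rw [h3] at h1
    have hy : y = -x / 2 := by
      have := h1.2
      field_simp
      linear_combination this
    have hE := (CC_eq j x y).1 hxy.1
    refine Set.mem_insert_of_mem _ ⟨x, ?_, ?_⟩
    · rw [Polynomial.mem_rootSet]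
      refine ⟨hp0, ?_⟩
      rw [hp]
      simp only [map_sub, map_mul, map_pow, Polynomial.aeval_X, Polynomial.aeval_C,
        Algebra.algebraMap_self, RingHom.id_apply]
      rw [hy] at hE
      field_simp at hE ⊢
      linear_combination -hE
    · show some (x, -x / 2) = some (x, y)
      rw [hy]

end

end Pool.Agent.V8H1.MF

namespace Pool.Agent.V8H1.MF

lemma fin_mul {A : Type*} [AddCommGroup A] (h2 : Set.Finite {P : A | (2 : ℤ) • P = 0}) (n : ℕ)
    {S : Set A} (hS : S.Finite) : Set.Finite {P : A | (2 ^ n : ℤ) • P ∈ S} := by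
  have hfib : ∀ Q : A, Set.Finite {P : A | (2 : ℤ) • P = Q} := by
    intro Q
    by_cases hne : ∃ P₀ : A, (2 : ℤ) • P₀ = Q
    · obtain ⟨P₀, hP₀⟩ := hne
      refine (h2.image fun P => P + P₀).subset ?_
      intro P hP
      refine ⟨P - P₀, ?_, by simp⟩
      have hP' : (2 : ℤ) • P = Q := hP
      show (2 : ℤ) • (P - P₀) = 0
      rw [smul_sub, hP', hP₀, sub_self]
    · have : {P : A | (2 : ℤ) • P = Q} = ∅ := by
        ext P
        simp only [Set.mem_empty_iff_false, iff_false]
        exact fun hP => hne ⟨P, hP⟩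
      rw [this]
      exact Set.finite_empty
  induction n with
  | zero =>
    have : {P : A | (2 ^ 0 : ℤ) • P ∈ S} = S := by
      ext P
      simp
    rw [this]
    exact hS
  | succ n ih =>
    have e : {P : A | (2 ^ (n + 1) : ℤ) • P ∈ S} =
        (fun P : A => (2 : ℤ) • P) ⁻¹' {P : A | (2 ^ n : ℤ) • P ∈ S} := by
      ext P
      show (2 ^ (n + 1) : ℤ) • P ∈ S ↔ (2 ^ n : ℤ) • ((2 : ℤ) • P) ∈ S
      rw [smul_smul, ← pow_succ]
    rw [e]
    exact ih.preimage' fun Q _ => hfib Q

section
variable {F : Type} [Field F] [NumberField F] {n : ℕ} {d : Fin n → ℕ} {s : Fin n → F}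

/-- **the points over a multiquadratic field** -/
theorem finite_points (h : MQ F d s) {M j : ℕ} (hM : M = 1 + 4 * j)
    (hT : ∀ T : Finset (Fin n), ∃ i : ℕ, DD d M T = 1 + 4 * i ∧
      Finite (CC ℚ (i : ℚ)).toAffine.Point) :
    Finite ((CC ℚ (j : ℚ)).baseChange F).toAffine.Point := by
  classical
  have h1 : ∀ T : Finset (Fin n), Set.Finite {P : ((CC ℚ (j : ℚ)).baseChange F).toAffine.Point |
      ∀ τ : Gal(F/ℚ), act (CC ℚ (j : ℚ)) τ P = sgT s τ T • P} := by
    intro T
    obtain ⟨i, hi, hf⟩ := hT T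
    exact eig_finite h hM hi hf
  have h2 : Set.Finite {P : ((CC ℚ (j : ℚ)).baseChange F).toAffine.Point | (2 : ℤ) • P = 0} := by
    have e : (CC ℚ (j : ℚ)).baseChange F = CC F (j : F) := by
      have := CC_map (algebraMap ℚ F) (j : ℚ)
      rw [map_natCast] at this
      exact this
    rw [e]
    exact two_finite (j : F)
  have h3 : Set.Finite ((fun f : Finset (Fin n) → ((CC ℚ (j : ℚ)).baseChange F).toAffine.Point =>
      ∑ T, f T) '' (Set.pi Set.univ fun T => {P : ((CC ℚ (j : ℚ)).baseChange F).toAffine.Point |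
      ∀ τ : Gal(F/ℚ), act (CC ℚ (j : ℚ)) τ P = sgT s τ T • P})) :=
    (Set.Finite.pi fun T => h1 T).image _
  have h4 := fin_mul h2 n h3
  have h5 : (Set.univ : Set ((CC ℚ (j : ℚ)).baseChange F).toAffine.Point).Finite := by
    refine h4.subset fun P _ => ?_
    refine ⟨fun T => comp s (CC ℚ (j : ℚ)) T P, ?_, comp_sum h (CC ℚ (j : ℚ)) P⟩
    intro T _ τ
    exact comp_act h (CC ℚ (j : ℚ)) T τ P
  exact Set.finite_univ_iff.1 h5

end

end Pool.Agent.V8H1.MF
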