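import Pool.Agent.V8H1.MF.Split

/-!
# Multiquadratic fields: splitting of the primes, the theorem
-/

set_option autoImplicit false
set_option linter.unusedSectionVars false

open NumberField Module IsDedekindDomain Ideal

namespace Pool.Agent.V8H1.MF

open Pool.Agent.H921R2.TatePole Pool.Agent.H82R3.EK
open scoped symmDiff Pointwise NumberTheorySymbols

section
variable {F : Type} [Field F] [NumberField F] {n : ℕ} {d : Fin n → ℕ} {s : Fin n → F}

lemma mem_of_below {q : Nat.Primes} {v : HeightOneSpectrum (𝓞 F)} (hv : below v = q) :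
    ((q : ℕ) : 𝓞 F) ∈ v.asIdeal := by
  have hv' : (below v : ℕ) = (q : ℕ) := by rw [hv]
  rw [← hv']
  exact (nm_eq v).2.2

/-- the valuation of an unramified prime -/
theorem val_one (q : Nat.Primes) (v : HeightOneSpectrum (𝓞 F)) (hv : below v = q)
    (h1 : v.asIdeal.ramificationIdx ℤ = 1) :
    v.valuation F ((q : ℕ) : F) = WithZero.exp (-1 : ℤ) := by
  have hq : Fact (q : ℕ).Prime := ⟨q.2⟩
  have hmem := mem_of_below hv
  have hl := liesOver_of_mem F q.2 v hmem
  have hvp := v.isPrime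
  have hmap : (Ideal.span {((q : ℕ) : ℤ)}).map (algebraMap ℤ (𝓞 F)) =
      Ideal.span {((q : ℕ) : 𝓞 F)} := by
    rw [Ideal.map_span, Set.image_singleton]
    simp
  have hq0 : ((q : ℕ) : 𝓞 F) ≠ 0 := Nat.cast_ne_zero.2 q.2.ne_zero
  have hne : (Ideal.span {((q : ℕ) : ℤ)}).map (algebraMap ℤ (𝓞 F)) ≠ ⊥ := by
    rw [hmap, Ne, Ideal.span_singleton_eq_bot]
    exact hq0
  rw [Ideal.IsDedekindDomain.ramificationIdx_eq_multiplicity (Ideal.span {((q : ℕ) : ℤ)}) v.asIdeal
    hne, hmap] at h1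
  have h2 : ¬ v.asIdeal ^ 2 ∣ Ideal.span {((q : ℕ) : 𝓞 F)} := by
    have hfin : FiniteMultiplicity v.asIdeal (Ideal.span {((q : ℕ) : 𝓞 F)}) := by
      apply FiniteMultiplicity.of_prime_left
      · exact v.prime
      · rw [Ideal.zero_eq_bot, Ne, Ideal.span_singleton_eq_bot]
        exact hq0
    intro h3
    have := hfin.le_multiplicity_of_pow_dvd h3
    omega
  have h3 : v.valuation F ((q : ℕ) : F) = v.intValuation ((q : ℕ) : 𝓞 F) := by
    have e : ((q : ℕ) : F) = algebraMap (𝓞 F) F ((q : ℕ) : 𝓞 F) := (map_natCast _ _).symm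
    rw [e, v.valuation_of_algebraMap]
  rw [h3]
  have h4 : v.intValuation ((q : ℕ) : 𝓞 F) < 1 := (v.intValuation_lt_one_iff_mem _).2 hmem
  have h5 : ¬ v.intValuation ((q : ℕ) : 𝓞 F) ≤ WithZero.exp (-((2 : ℕ) : ℤ)) := by
    rw [v.intValuation_le_pow_iff_dvd]
    exact h2
  have h6 : v.intValuation ((q : ℕ) : 𝓞 F) ≠ 0 := v.intValuation_ne_zero _ hq0
  obtain ⟨k, hk⟩ : ∃ k : ℤ, v.intValuation ((q : ℕ) : 𝓞 F) = WithZero.exp k :=
    ⟨WithZero.log _, (WithZero.exp_log h6).symm⟩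
  rw [hk] at h4 h5 ⊢
  rw [← WithZero.exp_zero, WithZero.exp_lt_exp] at h4
  rw [WithZero.exp_le_exp] at h5
  congr 1
  omega

/-- a prime factor of `d_i` ramifies -/
lemma ram_ne_one (h : MQ F d s) {q : Nat.Primes} {v : HeightOneSpectrum (𝓞 F)} (hv : below v = q)
    {i : Fin n} (hi : (q : ℕ) ∣ d i) : v.asIdeal.ramificationIdx ℤ ≠ 1 := by
  intro h1
  have h2 := val_one q v hv h1
  obtain ⟨c, hc⟩ := hi
  have hcq : ¬ (q : ℕ) ∣ c := by
    rintro ⟨e, rfl⟩
    have h3 := h.sqf i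
    rw [Nat.squarefree_iff_prime_squarefree] at h3
    exact h3 q q.2 ⟨e, by rw [hc]; ring⟩
  have h4 : v.valuation F ((c : ℕ) : F) = 1 := by
    have e : ((c : ℕ) : F) = algebraMap (𝓞 F) F ((c : ℤ) : 𝓞 F) := by
      rw [map_intCast]; push_cast; rfl
    rw [e, HeightOneSpectrum.valuation_eq_one_iff_notMem,
      int_mem q.2 v.isPrime (mem_of_below hv)]
    exact fun hd => hcq (by exact_mod_cast hd)
  have h5 := congrArg (v.valuation F) (h.sq i)
  rw [hc, Nat.cast_mul, map_mul, h2, h4, mul_one, map_pow] at h5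
  have h6 : v.valuation F (s i) ≠ 0 := (Valuation.ne_zero_iff _).2 (h.sne i)
  obtain ⟨k, hk⟩ : ∃ k : ℤ, v.valuation F (s i) = WithZero.exp k :=
    ⟨WithZero.log _, (WithZero.exp_log h6).symm⟩
  rw [hk, ← WithZero.exp_nsmul, WithZero.exp_inj] at h5
  simp only [nsmul_eq_mul] at h5
  push_cast at h5
  omega

theorem split_all (h : MQ F d s) (q : Nat.Primes) : ∃ e f : ℕ,
    (∀ v : HeightOneSpectrum (𝓞 F), below v = q → deg v = f) ∧
    Fintype.card {v : HeightOneSpectrum (𝓞 F) // below v = q} * (e * f) = 2 ^ n ∧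
    (AA d q).card * e = 2 ^ n ∧
    ((f = 1 ∧ BB d q = AA d q) ∨ (f = 2 ∧ (BB d q).card * 2 = (AA d q).card)) ∧
    ((∀ i, ¬ (q : ℕ) ∣ d i) → ∀ v : HeightOneSpectrum (𝓞 F), below v = q →
      v.valuation F ((q : ℕ) : F) = WithZero.exp (-1 : ℤ)) := by
  classical
  have hgal := h.gal
  have hp : Fact (q : ℕ).Prime := ⟨q.2⟩
  have hpmax : (Ideal.span {((q : ℕ) : ℤ)}).IsMaximal := Int.ideal_span_isMaximal_of_prime (q : ℕ)
  set p0 : Ideal ℤ := Ideal.span {((q : ℕ) : ℤ)} with hp0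
  have hcard : Nat.card (ℤ ⧸ p0) = (q : ℕ) := Int.card_ideal_quot _
  have : Finite (ℤ ⧸ p0) := by
    apply Nat.finite_of_card_ne_zero
    rw [hcard]
    exact hp.out.ne_zero
  obtain ⟨⟨P, hP1, hP2⟩⟩ := p0.nonempty_primesOver (S := 𝓞 F)
  have hpmem : ((q : ℕ) : 𝓞 F) ∈ P := by
    have h3 : ((q : ℕ) : ℤ) ∈ P.under ℤ := by
      rw [← hP2.over]
      exact Ideal.mem_span_singleton_self _
    rw [Ideal.mem_comap] at h3
    simpa using h3
  set e := Ideal.ramificationIdxIn p0 (𝓞 F) with he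
  set f := Ideal.inertiaDegIn p0 (𝓞 F) with hf
  have hG : Nat.card Gal(F/ℚ) = 2 ^ n := by rw [IsGalois.card_aut_eq_finrank, h.deg]
  have h1 : Nat.card (P.inertia Gal(F/ℚ)) = e :=
    Ideal.card_inertia_eq_ramificationIdxIn (G := Gal(F/ℚ)) p0 P
  have h2 : Nat.card (MulAction.stabilizer Gal(F/ℚ) P) = e * f :=
    Ideal.card_stabilizer_eq (G := Gal(F/ℚ)) p0 P
  have h3 := Ideal.ncard_primesOver_mul_ramificationIdxIn_mul_inertiaDegIn p0 (𝓞 F) Gal(F/ℚ)
  rw [hG, ← card_fiber, ← he, ← hf] at h3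
  have hPf : P.inertiaDeg ℤ = f := (inertiaDegIn_eq_inertiaDeg p0 P Gal(F/ℚ)).symm
  have hnorm := Ideal.pow_inertiaDeg (q : ℕ) P
  rw [hPf, Ideal.absNorm_apply, Submodule.cardQuot_apply] at hnorm
  have hApos : 0 < (AA d q).card := Finset.card_pos.2 ⟨∅, mem_AA.2 (mem_BB.1 (empty_BB q.2)).1⟩
  have hBpos : 0 < (BB d q).card := Finset.card_pos.2 ⟨∅, empty_BB q.2⟩
  -- inertia
  have h4 : (AA d q).card * e ≤ 2 ^ n := by
    rw [← h1]
    refine orth h _ _ fun T hT σ hσ => ?_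
    exact claim1 h q.2 hP1 hpmem (mem_AA.1 hT) fun x => hσ x
  have he0 : 0 < e := by
    rw [← h1]
    exact Nat.card_pos
  have h5 : (AA d q).card * e = 2 ^ n ∧ ((∀ i, ¬ (q : ℕ) ∣ d i) → e = 1) := by
    by_cases hd : ∀ i, ¬ (q : ℕ) ∣ d i
    · rw [card_AA_all h q.2 hd] at h4 ⊢
      have : e = 1 := by
        have : 0 < 2 ^ n := by positivity
        have h6 : 2 ^ n * e ≤ 2 ^ n * 1 := by rw [mul_one]; exact h4
        have := Nat.le_of_mul_le_mul_left h6 (by positivity)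
        omega
      rw [this, mul_one]
      exact ⟨rfl, fun _ => rfl⟩
    · push Not at hd
      obtain ⟨i, hi⟩ := hd
      have h6 := card_AA_half h q.2 hi
      have h7 : e ≤ 2 := by
        rw [← h6] at h4
        exact Nat.le_of_mul_le_mul_left h4 hApos
      have h8 : e ≠ 1 := by
        have hne : P ≠ ⊥ := by
          rintro rfl
          have h9 : ((q : ℕ) : 𝓞 F) = 0 := hpmem
          exact hp.out.ne_zero (by exact_mod_cast h9)
        have h9 := ram_ne_one h (v := ⟨P, hP1, hne⟩) (below_eq_of_mem F _ hpmem) hi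
        rw [he, ramificationIdxIn_eq_ramificationIdx p0 P Gal(F/ℚ)]
        exact h9
      have : e = 2 := by omega
      rw [this]
      exact ⟨h6, fun h9 => absurd hi (h9 i)⟩
  -- decomposition
  have h6 : (BB d q).card * (e * f) ≤ 2 ^ n := by
    rw [← h2]
    refine orth h _ _ fun T hT σ hσ => ?_
    obtain ⟨hT1, hT2⟩ := mem_BB.1 hT
    refine claim2 h q.2 hP1 hpmem hT1 ((rt_iff q.2 (h.m4 T) hT1).2 hT2) fun x hx => ?_
    have h7 : σ • P = P := hσ
    rw [← h7]
    exact Ideal.smul_mem_pointwise_smul σ x P hx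
  have hf0 : 0 < f := by
    rcases Nat.eq_zero_or_pos f with h7 | h7
    · rw [h7, mul_zero, mul_zero] at h3
      have : 0 < 2 ^ n := by positivity
      omega
    · exact h7
  have h7 : (BB d q).card * f ≤ (AA d q).card := by
    rw [← h5.1] at h6
    have h8 : e * ((BB d q).card * f) ≤ e * (AA d q).card := by
      calc e * ((BB d q).card * f) = (BB d q).card * (e * f) := by ring
        _ ≤ (AA d q).card * e := h6
        _ = e * (AA d q).card := by ring
    exact Nat.le_of_mul_le_mul_left h8 he0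
  have h8 : (f = 1 ∧ BB d q = AA d q) ∨ (f = 2 ∧ (BB d q).card * 2 = (AA d q).card) := by
    by_cases hAB : BB d q = AA d q
    · left
      refine ⟨?_, hAB⟩
      rw [hAB] at h7
      have h9 : (AA d q).card * f ≤ (AA d q).card * 1 := by rw [mul_one]; exact h7
      have := Nat.le_of_mul_le_mul_left h9 hApos
      omega
    · right
      obtain ⟨U, hU1, hU2⟩ : ∃ U ∈ AA d q, U ∉ BB d q := by
        by_contra hcon
        push Not at hcon
        exact hAB (Finset.Subset.antisymm (fun T hT => mem_AA.2 (mem_BB.1 hT).1) hcon)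
      have h9 := card_BB h q.2 hU1 hU2
      have h10 : f ≤ 2 := by
        rw [← h9] at h7
        exact Nat.le_of_mul_le_mul_left h7 hBpos
      have h11 : f ≠ 1 := by
        intro h12
        rw [h12, pow_one] at hnorm
        have h13 := claim3 h q.2 hP1 hpmem hnorm.symm U
        rw [rt_iff q.2 (h.m4 U) (mem_AA.1 hU1)] at h13
        exact hU2 (mem_BB.2 ⟨mem_AA.1 hU1, h13⟩)
      exact ⟨by omega, h9⟩
  have hover : ∀ v : HeightOneSpectrum (𝓞 F), below v = q → v.asIdeal.LiesOver p0 := fun v hv =>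
    liesOver_of_mem F q.2 v (mem_of_below hv)
  refine ⟨e, f, ?_, h3, h5.1, h8, ?_⟩
  · intro v hv
    have := hover v hv
    have hvp := v.isPrime
    have h9 : v.asIdeal.inertiaDeg ℤ = f := (inertiaDegIn_eq_inertiaDeg p0 v.asIdeal Gal(F/ℚ)).symm
    have h10 := Ideal.pow_inertiaDeg (q : ℕ) v.asIdeal
    have h11 := (nm_eq v).1
    unfold nm at h11
    rw [h9, h11, hv] at h10
    exact (Nat.pow_right_injective hp.out.two_le h10).symm
  · intro hd v hv
    have := hover v hv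
    have hvp := v.isPrime
    refine val_one q v hv ?_
    rw [← ramificationIdxIn_eq_ramificationIdx p0 v.asIdeal Gal(F/ℚ)]
    exact h5.2 hd

end

end Pool.Agent.V8H1.MF
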