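import Pool.Agent.Y698.SG.Az
import Pool.Agent.V8H1.MF.Loc
import Pool.Agent.V8H1.MF.Rank
import Pool.Agent.V8H1.MF.Split2

/-!
# Multiquadratic fields: the Euler factors of the twists of `X_0(49)`
-/

set_option autoImplicit false
set_option linter.unusedSectionVars false

open NumberField IsDedekindDomain WeierstrassCurve

namespace Pool.Agent.V8H1.MF

open Pool.Agent.W189.NF
open Pool.Agent.H921R2.TatePole Pool.Agent.H82R3.EK
open Pool.Agent.Y698 Pool.Agent.Y698.SG
open W165.CE (pw pw_eq pw_luc)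
open scoped symmDiff NumberTheorySymbols

section
variable {K : Type} [Field K] [NumberField K]

lemma qch_prod {D : ℕ} (hD : Squarefree D) (m : ℤ) :
    ∏ q ∈ D.primeFactors, qch q m = ((jacobiSym m D : ℤ) : ℂ) := by
  have h : ∀ S : Finset ℕ, (∀ q ∈ S, q.Prime) →
      ∏ q ∈ S, qch q m = ((jacobiSym m (∏ q ∈ S, q) : ℤ) : ℂ) := by
    classical
    intro S hS
    induction S using Finset.induction_on with
    | empty => simp
    | insert q S hq ih =>
      have ih' := ih fun p hp => hS p (Finset.mem_insert_of_mem hp)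
      rw [Finset.prod_insert hq, Finset.prod_insert hq, ih', jacobiSym.mul_right']
      · push_cast
        rfl
      · exact (hS q (Finset.mem_insert_self _ _)).ne_zero
      · exact Finset.prod_ne_zero_iff.2 fun p hp => (hS p (Finset.mem_insert_of_mem hp)).ne_zero
  rw [h _ fun q hq => Nat.prime_of_mem_primeFactors hq, Nat.prod_primeFactors_of_squarefree hD]

lemma gp_of {D : ℕ} (h4 : Q4 D) : ∀ q ∈ D.primeFactors, Gp q := fun q hq =>
  ⟨Nat.prime_of_mem_primeFactors hq, h4 q (Nat.prime_of_mem_primeFactors hq)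
    (Nat.dvd_of_mem_primeFactors hq)⟩

/-- the coefficients of the local factors at the places of good reduction -/
theorem coeffs_good (v : HeightOneSpectrum (𝓞 K)) {i j D : ℕ} (hD : Squarefree D) (h4 : Q4 D)
    (hj : D = 1 + 4 * j) {a : K} (ha : a ≠ 0)
    (haD : (1 + 4 * (j : K)) = (1 + 4 * (i : K)) * a ^ 2)
    (hb : (below v : ℕ) ≠ 7) (hv : ¬ (below v : ℕ) ∣ D) :
    ((aV (EX K (i : K)) v : ℤ) : ℂ) = ((J((below v : ℕ) | D) : ℤ) : ℂ) ^ deg v *
      pw (bc (below v : ℕ)) (ec (below v : ℕ)) (deg v) ∧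
    ((eV (EX K (i : K)) v : ℤ) : ℂ) = (ec (below v : ℕ)) ^ deg v := by
  classical
  obtain ⟨n1, n2, n3⟩ := nm_eq v
  set S := D.primeFactors with hS
  have hDS : ∏ q ∈ S, q = D := Nat.prod_primeFactors_of_squarefree hD
  have hSG := gp_of h4
  have hbS : (below v : ℕ) ∉ S := fun h => hv (Nat.dvd_of_mem_primeFactors h)
  have hW0 : (EX K (j : K)).baseChange (v.adicCompletion K) =
      (EX (Ov v) (j : Ov v)).map (algebraMap (Ov v) (v.adicCompletion K)) := by
    rw [EX_map, map_natCast]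
    have := EX_map (algebraMap K (v.adicCompletion K)) (j : K)
    rw [map_natCast] at this
    exact this
  obtain ⟨C, hW⟩ : ∃ C : VariableChange (v.adicCompletion K),
      (EX K (i : K)).baseChange (v.adicCompletion K) =
        C • (EX (Ov v) (j : Ov v)).map (algebraMap (Ov v) (v.adicCompletion K)) := by
    obtain ⟨C₀, hC₀⟩ : ∃ C₀ : VariableChange K, EX K (i : K) = C₀ • EX K (j : K) :=
      ⟨_, CC_vc two_ne_zero ha haD⟩
    refine ⟨C₀.map (algebraMap K (v.adicCompletion K)), ?_⟩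
    rw [← hW0]
    have h1 := WeierstrassCurve.map_variableChange (W := EX K (j : K)) (C := C₀)
      (φ := algebraMap K (v.adicCompletion K))
    rw [← hC₀] at h1
    exact h1.symm
  -- units
  have hunit : ∀ p : ℕ, p.Prime → (below v : ℕ) ≠ p → IsUnit ((p : ℕ) : Ov v) := by
    intro p hp hne
    by_contra hcon
    have h1 : IsLocalRing.residue (Ov v) ((p : ℕ) : Ov v) = 0 :=
      (IsLocalRing.residue_eq_zero_iff _).2 ((IsLocalRing.mem_maximalIdeal _).2 hcon)
    rw [map_natCast] at h1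
    have hfin := finite_res v
    have hcard : Nat.card (IsLocalRing.ResidueField (Ov v)) = (below v : ℕ) ^ deg v := by
      rw [← n1]
      exact card_res v
    have h2 : ((below v : ℕ) : IsLocalRing.ResidueField (Ov v)) = 0 := by
      have h2 : ((Nat.card (IsLocalRing.ResidueField (Ov v)) : ℕ) :
          IsLocalRing.ResidueField (Ov v)) = 0 := by
        have := Fintype.ofFinite (IsLocalRing.ResidueField (Ov v))
        rw [Nat.card_eq_fintype_card]
        exact Nat.cast_card_eq_zero _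
      rw [hcard] at h2
      push_cast at h2
      exact (pow_eq_zero_iff n2.ne').1 h2
    have hcop : IsCoprime ((below v : ℕ) : ℤ) (p : ℤ) :=
      Nat.isCoprime_iff_coprime.2 ((Nat.coprime_primes (below v).2 hp).2 hne)
    obtain ⟨s, t, hst⟩ := hcop
    have h3 := congrArg (fun z : ℤ => (z : IsLocalRing.ResidueField (Ov v))) hst
    push_cast at h3
    rw [h1, h2, mul_zero, mul_zero, add_zero] at h3
    exact zero_ne_one h3
  have hj' : ∏ q ∈ S, q = 1 + 4 * j := hDS.trans hj
  have hfin := finite_res v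
  have hcard : Nat.card (IsLocalRing.ResidueField (Ov v)) = (below v : ℕ) ^ deg v := by
    rw [← n1]
    exact card_res v
  have hDu : IsUnit ((∏ q ∈ S, q : ℕ) : Ov v) := by
    have : ((∏ q ∈ S, q : ℕ) : Ov v) = ∏ q ∈ S, (q : Ov v) := by
      push_cast
      rfl
    rw [this]
    refine isUnit_fprod fun q hqS => hunit q (hSG q hqS).pr ?_
    intro h
    exact hbS (h ▸ hqS)
  have hΔ : IsUnit (EX (Ov v) (j : Ov v)).Δ := by
    have hDc : (1 + 4 * (j : Ov v)) = ((∏ q ∈ S, q : ℕ) : Ov v) := by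
      rw [hj']
      push_cast
      rfl
    rw [EX_Δ, hDc]
    refine IsUnit.mul ?_ (hDu.pow 6)
    have e : (-343 : Ov v) = -(((7 : ℕ) : Ov v) ^ 3) := by norm_num
    rw [e]
    exact ((hunit 7 (by norm_num) hb).pow 3).neg
  obtain ⟨a1, a2⟩ := count_vc (v.adicCompletionIntegers K) hΔ hW
  unfold aV eV
  rw [a1, a2, EX_map, map_natCast]
  constructor
  · rw [← qch_prod hD]
    exact trace_tw (IsLocalRing.ResidueField (Ov v)) (below v).2 hb n2.ne' hcard hSG hbS hj'
  · have : ec (below v : ℕ) = ((below v : ℕ) : ℂ) := by unfold ec; rw [if_neg hb]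
    rw [this]
    have h3 : Nat.card (IsLocalRing.ResidueField (v.adicCompletionIntegers K)) =
      (below v : ℕ) ^ deg v := hcard
    rw [h3]
    push_cast
    rfl

end

section
variable {F : Type} [Field F] [NumberField F] {n : ℕ} {d : Fin n → ℕ} {s : Fin n → F}

lemma EF_zero (z : ℂ) (q : ℕ) : EF 0 z q = 1 := by
  unfold EF
  simp

/-- **the Euler factors above a prime number** -/
theorem places (h : MQ F d s) {M j : ℕ} (hM : Squarefree M) (hM4 : Q4 M) (hj : M = 1 + 4 * j)
    (z : ℂ) (q : Nat.Primes) :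
    ∏ v : {v : HeightOneSpectrum (𝓞 F) // below v = q}, LFD j z v.1 =
      ∏ T : Finset (Fin n), EF ((J((q : ℕ) | DD d M T) : ℤ) : ℂ) z q := by
  classical
  obtain ⟨e, f, h1, h2, h3, h4, h5⟩ := split_all h q
  have hM0 := hM.ne_zero
  have hDM : DD d M ∅ = M := by
    unfold DD
    rw [Finset.prod_empty, mul_one, sf_self hM]
  have hSp : ∏ p ∈ M.primeFactors, p = 1 + 4 * j :=
    (Nat.prod_primeFactors_of_squarefree hM).trans hj
  have hzero : ∀ m : ℕ, m ≠ 0 → (q : ℕ) ∣ m → EF ((J((q : ℕ) | m) : ℤ) : ℂ) z q = 1 := by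
    intro m hm hqm
    rw [jac_zero q.2 hm hqm, Int.cast_zero, EF_zero]
  by_cases hq7 : (q : ℕ) = 7
  · have hnd : ∀ i, ¬ (q : ℕ) ∣ d i := by
      intro i hi
      have := h.q4 i q q.2 hi
      rw [hq7] at this
      norm_num at this
    have hb7 : bc 7 = 0 := by
      have := bc_seven 0
      rwa [zero_add, pow_one] at this
    have he7 : ec 7 = 0 := by unfold ec; rw [if_pos rfl]
    rw [Finset.prod_eq_one, Finset.prod_eq_one]
    · intro T _
      unfold EF
      rw [hq7, hb7, he7]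
      simp
    · rintro ⟨v, hv⟩ _
      have hv' : (below v : ℕ) = 7 := by rw [hv, hq7]
      obtain ⟨c1, c2⟩ := coeffsD v (gp_of hM4) hSp (fun _ => by
        have := h5 hnd v hv
        rwa [hq7] at this) (fun p hp hvp => by
        exfalso
        have := (gp_of hM4 p hp).m4
        rw [← hvp, hv'] at this
        norm_num at this)
      have n2 := (nm_eq v).2.1
      unfold LFD
      rw [c1, c2, hv', hb7, he7]
      have := pw_eq (t := 0) (u := 0) (α := 0) (β := 0) (by ring) (by ring) (deg v)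
      rw [this, zero_pow n2.ne', mul_zero, zero_pow n2.ne']
      norm_num
  by_cases hall : ∀ T : Finset (Fin n), (q : ℕ) ∣ DD d M T
  · have hqM : (q : ℕ) ∣ M := by
      have := hall ∅
      rwa [hDM] at this
    have hnd : ∀ i, ¬ (q : ℕ) ∣ d i := by
      intro i hi
      have h6 := (dvd_symm hM0 h.ne q.2 (∅ : Finset (Fin n)) {i}).1 (hall _)
      rw [DD_single h] at h6
      exact h6 (iff_of_true (hall _) hi)
    rw [Finset.prod_eq_one, Finset.prod_eq_one]
    · intro T _
      exact hzero _ (DD_ne _ _) (hall T)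
    · rintro ⟨v, hv⟩ _
      have hv' : (below v : ℕ) = (q : ℕ) := by rw [hv]
      obtain ⟨c1, c2⟩ := coeffsD v (gp_of hM4) hSp (fun h7 => absurd (hv'.symm.trans h7) hq7)
        (fun p hp hvp => by
          rw [← hvp, hv']
          exact h5 hnd v hv)
      have n2 := (nm_eq v).2.1
      have he0 : ∏ p ∈ M.primeFactors, qch p (below v : ℕ) = 0 := by
        rw [qch_prod hM, hv', jac_zero q.2 hM0 hqM, Int.cast_zero]
      unfold LFD
      rw [c1, c2, he0, zero_pow n2.ne', zero_pow two_ne_zero]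
      simp only [zero_mul, zero_pow n2.ne']
      norm_num
  push Not at hall
  obtain ⟨T₀, hT₀⟩ := hall
  -- the curve has good reduction
  have hD4 : Q4 (DD d M T₀) := q4_DD hM0 hM4 h.ne h.q4 T₀
  obtain ⟨i, hi⟩ : ∃ i : ℕ, DD d M T₀ = 1 + 4 * i := by
    have := q4_mod (DD_ne M T₀) hD4
    exact ⟨DD d M T₀ / 4, by omega⟩
  obtain ⟨b, hb, hb2⟩ := DD_spec (d := d) hM0 h.ne T₀
  have hb' : (b : F) ≠ 0 := Nat.cast_ne_zero.2 hb
  set t : F := ∏ k ∈ T₀, s k with ht
  have ht2 : t ^ 2 = ((∏ k ∈ T₀, d k : ℕ) : F) := by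
    rw [ht, ← Finset.prod_pow, Finset.prod_congr rfl (fun k _ => h.sq k), ← Nat.cast_prod]
  have ht0 : t ≠ 0 := by
    rw [ht, Finset.prod_ne_zero_iff]
    exact fun k _ => h.sne k
  have ha0 : t / b ≠ 0 := div_ne_zero ht0 hb'
  have hMa : (1 + 4 * (i : F)) = (1 + 4 * (j : F)) * (t / b) ^ 2 := by
    rw [hi, hj] at hb2
    have h6 := congrArg (fun z : ℕ => (z : F)) hb2
    push_cast at h6
    rw [div_pow, ht2]
    push_cast
    field_simp
    linear_combination -h6
  set ε : ℂ := ((J((q : ℕ) | DD d M T₀) : ℤ) : ℂ) with hε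
  have hε2 : ε ^ 2 = 1 := by
    rcases jac_pm q.2 hT₀ with h6 | h6 <;> rw [hε, h6] <;> norm_num
  set x : ℂ := ((q : ℕ) : ℂ) ^ (-z) with hx
  have hLF : ∀ v : {v : HeightOneSpectrum (𝓞 F) // below v = q}, LFD j z v.1 =
      (1 - ε ^ f * pw (bc q) (ec q) f * x ^ f + ec q ^ f * (x ^ f) ^ 2)⁻¹ := by
    rintro ⟨v, hv⟩
    have hv' : (below v : ℕ) = (q : ℕ) := by rw [hv]
    obtain ⟨c1, c2⟩ := coeffs_good v (squarefree_sf _) hD4 hi ha0 hMa (by rw [hv']; exact hq7)
      (by rw [hv']; exact hT₀)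
    have e1 : ((nm v : ℕ) : ℂ) ^ (-z) = x ^ f := by
      rw [(nm_eq v).1, h1 v hv, hv', Pool.Agent.W164.RC.pow_cpow']
    unfold LFD
    rw [c1, c2, e1, h1 v hv, hv']
    rfl
  rw [Finset.prod_congr rfl (fun v _ => hLF v), Finset.prod_const, Finset.card_univ]
  -- the right side
  have hR : ∏ T : Finset (Fin n), EF ((J((q : ℕ) | DD d M T) : ℤ) : ℂ) z q =
      ∏ U ∈ AA d q, EF (ε * ((J((q : ℕ) | DD d 1 U) : ℤ) : ℂ)) z q := by
    have h6 : ∏ T : Finset (Fin n), EF ((J((q : ℕ) | DD d M T) : ℤ) : ℂ) z q =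
        ∏ U : Finset (Fin n), EF ((J((q : ℕ) | DD d M (T₀ ∆ U)) : ℤ) : ℂ) z q := by
      refine Fintype.prod_bijective (fun T => T₀ ∆ T) ?_ _ _ ?_
      · exact Function.Involutive.bijective fun T => by
          rw [← symmDiff_assoc, symmDiff_self, bot_symmDiff]
      · intro T
        rw [← symmDiff_assoc, symmDiff_self, bot_symmDiff]
    rw [h6, ← Finset.prod_subset (Finset.subset_univ (AA d q))]
    · refine Finset.prod_congr rfl fun U hU => ?_
      rw [jac_symm hM0 h.ne q.2 hT₀ (mem_AA.1 hU)]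
      push_cast
      rfl
    · intro U _ hU
      rw [mem_AA, not_not] at hU
      refine hzero _ (DD_ne _ _) ?_
      rw [dvd_symm hM0 h.ne q.2]
      tauto
  rw [hR]
  have he0 : 0 < e := by
    rcases Nat.eq_zero_or_pos e with h6 | h6
    · rw [h6, mul_zero] at h3
      have : 0 < 2 ^ n := by positivity
      omega
    · exact h6
  rcases h4 with ⟨hf, hB⟩ | ⟨hf, hB⟩
  · have hc : Fintype.card {v : HeightOneSpectrum (𝓞 F) // below v = q} = (AA d q).card := by
      rw [hf, mul_one, ← h3] at h2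
      exact Nat.eq_of_mul_eq_mul_right he0 h2
    rw [hc, ← Finset.prod_const]
    refine Finset.prod_congr rfl fun U hU => ?_
    rw [← hB] at hU
    rw [(mem_BB.1 hU).2, hf]
    unfold EF
    have e2 : pw (bc (q : ℕ)) (ec (q : ℕ)) 1 = bc (q : ℕ) := rfl
    rw [e2, ← hx]
    congr 1
    simp only [pow_one, Int.cast_one, mul_one, mul_pow, hε2]
    ring
  · have hc : Fintype.card {v : HeightOneSpectrum (𝓞 F) // below v = q} = (BB d q).card := by
      rw [hf, ← h3, ← hB] at h2
      have h6 : (Fintype.card {v : HeightOneSpectrum (𝓞 F) // below v = q}) * (2 * e) =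
        (BB d q).card * (2 * e) := by
        calc _ = Fintype.card {v : HeightOneSpectrum (𝓞 F) // below v = q} * (e * 2) := by ring
          _ = _ := by rw [h2]; ring
      exact Nat.eq_of_mul_eq_mul_right (by omega) h6
    have hsub : BB d q ⊆ AA d q := fun T hT => mem_AA.2 (mem_BB.1 hT).1
    have hc2 : (AA d q \ BB d q).card = (BB d q).card := by
      rw [Finset.card_sdiff_of_subset hsub]
      omega
    rw [← Finset.prod_sdiff hsub]
    have e3 : ∏ U ∈ AA d q \ BB d q, EF (ε * ((J((q : ℕ) | DD d 1 U) : ℤ) : ℂ)) z q =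
        EF (-ε) z q ^ (BB d q).card := by
      rw [← hc2, ← Finset.prod_const]
      refine Finset.prod_congr rfl fun U hU => ?_
      rw [Finset.mem_sdiff, mem_BB] at hU
      have h7 := mem_AA.1 hU.1
      have h8 : J((q : ℕ) | DD d 1 U) = -1 :=
        (jac_pm q.2 h7).resolve_left fun h9 => hU.2 ⟨h7, h9⟩
      rw [h8]
      congr 1
      push_cast
      ring
    have e4 : ∏ U ∈ BB d q, EF (ε * ((J((q : ℕ) | DD d 1 U) : ℤ) : ℂ)) z q =
        EF ε z q ^ (BB d q).card := by
      rw [← Finset.prod_const]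
      refine Finset.prod_congr rfl fun U hU => ?_
      rw [(mem_BB.1 hU).2]
      congr 1
      push_cast
      ring
    rw [e3, e4, hc, ← mul_pow]
    congr 1
    unfold EF
    rw [← mul_inv, ← hx, hf]
    have e2 : pw (bc (q : ℕ)) (ec (q : ℕ)) 2 = bc q * bc q - ec q * 2 := rfl
    rw [e2]
    congr 1
    have e5 : ε ^ 4 = 1 := by
      calc ε ^ 4 = (ε ^ 2) ^ 2 := by ring
        _ = 1 := by rw [hε2]; ring
    linear_combination (-(ec q ^ 2 * x ^ 4)) * e5

end

end Pool.Agent.V8H1.MF
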