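import Pool.Agent.V8H1.MF.Euler

/-!
# Multiquadratic fields: the L-series of the twists of `X_0(49)`
-/

set_option autoImplicit false
set_option linter.unusedSectionVars false

open NumberField IsDedekindDomain WeierstrassCurve Module

namespace Pool.Agent.V8H1.MF

open Pool.Agent.W189.NF
open Pool.Agent.H921R2.TatePole Pool.Agent.H82R3.EK
open Pool.Agent.Y698 Pool.Agent.Y698.SG
open scoped symmDiff NumberTheorySymbols

lemma mq_rat : MQ ℚ (fun _ : Fin 0 => 1) (fun _ : Fin 0 => (1 : ℚ)) where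
  sqf := fun i => i.elim0
  q4 := fun i => i.elim0
  sq := fun i => i.elim0
  top := by
    rw [eq_top_iff]
    intro x _
    exact (IntermediateField.adjoin ℚ _).algebraMap_mem x
  deg := by rw [finrank_self, pow_zero]

section
variable {F : Type} [Field F] [NumberField F] {n : ℕ} {d : Fin n → ℕ} {s : Fin n → F}

/-- the Euler product over `F`, arranged by the prime numbers -/
theorem euler_F (h : MQ F d s) {M j : ℕ} (hM : Squarefree M) (hM4 : Q4 M) (hj : M = 1 + 4 * j)
    {z : ℂ} (hz : 2 < z.re) :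
    HasProd (fun q : Nat.Primes =>
      ∏ T : Finset (Fin n), EF ((J((q : ℕ) | DD d M T) : ℤ) : ℂ) z q)
      ((EX F (j : F)).LSeries z) := by
  have h2 := (LSeries_hasProd (EX F (j : F)) hz).2
  have h3 := (Equiv.sigmaFiberEquiv (below (K := F))).hasProd_iff.2 h2
  have h4 := h3.sigma (g := fun q : Nat.Primes =>
    ∏ v : {v : HeightOneSpectrum (𝓞 F) // below v = q}, LFD j z v.1) (fun q => hasProd_fintype _)
  have h5 : (fun q : Nat.Primes => ∏ T : Finset (Fin n), EF ((J((q : ℕ) | DD d M T) : ℤ) : ℂ) z q) =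
      fun q : Nat.Primes => ∏ v : {v : HeightOneSpectrum (𝓞 F) // below v = q}, LFD j z v.1 :=
    funext fun q => (places h hM hM4 hj z q).symm
  rw [h5]
  exact h4

/-- the Euler product over the rational numbers -/
theorem euler_Q {M j : ℕ} (hM : Squarefree M) (hM4 : Q4 M) (hj : M = 1 + 4 * j)
    {z : ℂ} (hz : 2 < z.re) :
    HasProd (fun q : Nat.Primes => EF ((J((q : ℕ) | M) : ℤ) : ℂ) z q)
      ((EX ℚ (j : ℚ)).LSeries z) := by
  have h1 := euler_F mq_rat hM hM4 hj hz
  convert h1 using 2 with q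
  rw [Finset.univ_unique, Finset.prod_singleton]
  congr 3
  have : (default : Finset (Fin 0)) = ∅ := Subsingleton.elim _ _
  rw [this]
  unfold DD
  rw [Finset.prod_empty, mul_one, sf_self hM]

/-- **the L-series over `F`** -/
theorem lseries_prod (h : MQ F d s) {M j : ℕ} (hM : Squarefree M) (hM4 : Q4 M) (hj : M = 1 + 4 * j)
    {i : Finset (Fin n) → ℕ} (hi : ∀ T, DD d M T = 1 + 4 * i T) {z : ℂ} (hz : 2 < z.re) :
    (EX F (j : F)).LSeries z = ∏ T : Finset (Fin n), (EX ℚ ((i T : ℕ) : ℚ)).LSeries z := by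
  have h1 := euler_F h hM hM4 hj hz
  have h2 : HasProd (fun q : Nat.Primes =>
      ∏ T : Finset (Fin n), EF ((J((q : ℕ) | DD d M T) : ℤ) : ℂ) z q)
      (∏ T : Finset (Fin n), (EX ℚ ((i T : ℕ) : ℚ)).LSeries z) :=
    hasProd_prod fun T _ => euler_Q (squarefree_sf _) (q4_DD hM.ne_zero hM4 h.ne h.q4 T) (hi T) hz
  exact h1.unique h2

end

end Pool.Agent.V8H1.MF
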