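import Pool.Agent.V8H1.MF.Split2

/-!
# Multiquadratic fields: square roots in the field, towers
-/

set_option autoImplicit false
set_option linter.unusedSectionVars false

open NumberField Module

namespace Pool.Agent.V8H1.MF

open scoped symmDiff

section
variable {F : Type} [Field F] [NumberField F] {n : ℕ} {d : Fin n → ℕ} {s : Fin n → F}

/-- the square roots in a multiquadratic field -/
theorem kummer (h : MQ F d s) {r : F} {m : ℕ} (hm : Squarefree m) (hr : r ^ 2 = (m : F)) :
    ∃ T : Finset (Fin n), m = DD d 1 T := by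
  classical
  have hgal := h.gal
  have hm0 : (m : F) ≠ 0 := Nat.cast_ne_zero.2 hm.ne_zero
  have hr0 : r ≠ 0 := by
    rintro rfl
    rw [zero_pow two_ne_zero] at hr
    exact hm0 hr.symm
  let χ : Gal(F/ℚ) → ℤ := fun σ => if σ r = r then 1 else -1
  have hχv : ∀ σ, χ σ = 1 ∨ χ σ = -1 := by
    intro σ
    simp only [χ]
    split_ifs
    · exact Or.inl rfl
    · exact Or.inr rfl
  have hχ : ∀ σ : Gal(F/ℚ), σ r = (χ σ : F) * r := by
    intro σ
    simp only [χ]
    split_ifs with h1
    · rw [h1]; simp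
    · have h2 : (σ r) ^ 2 = r ^ 2 := by rw [← map_pow, hr, map_natCast]
      rcases sq_eq_sq_iff_eq_or_eq_neg.1 h2 with h3 | h3
      · exact absurd h3 h1
      · rw [h3]; simp
  have hχm : ∀ σ τ : Gal(F/ℚ), χ (σ * τ) = χ σ * χ τ := by
    intro σ τ
    have h1 := hχ (σ * τ)
    rw [AlgEquiv.mul_apply, hχ τ, map_mul, map_intCast, hχ σ] at h1
    have h2 : ((χ (σ * τ) : ℤ) : F) = ((χ σ * χ τ : ℤ) : F) := by
      apply mul_right_cancel₀ hr0
      rw [← h1]
      push_cast
      ring
    exact_mod_cast h2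
  have hsum : ∑ T : Finset (Fin n), ∑ σ : Gal(F/ℚ), sgT s σ T * χ σ = 2 ^ n := by
    rw [Finset.sum_comm]
    simp_rw [← Finset.sum_mul]
    have h2 : ∀ σ : Gal(F/ℚ), ∑ T : Finset (Fin n), sgT s σ T = ∏ i, (1 + sg s σ i) := by
      intro σ
      rw [Finset.prod_one_add, Finset.powerset_univ]
      rfl
    simp_rw [h2]
    rw [Finset.sum_eq_single (1 : Gal(F/ℚ))]
    · have h3 : ∀ i : Fin n, 1 + sg s (1 : Gal(F/ℚ)) i = 2 := by
        intro i
        have := sgT_one h {i}
        unfold sgT at this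
        rw [Finset.prod_singleton] at this
        rw [this]
        norm_num
      have h4 : χ 1 = 1 := by
        simp only [χ]
        rw [if_pos (by rfl)]
      rw [Finset.prod_congr rfl (fun i _ => h3 i), Finset.prod_const, Finset.card_univ,
        Fintype.card_fin, h4, mul_one]
    · intro σ _ hσ
      have h5 : ∏ i, (1 + sg s σ i) = 0 := by
        by_contra h5
        apply hσ
        refine sg_inj h fun i => ?_
        rcases sg_val (s := s) σ i with h6 | h6
        · exact h6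
        · exfalso
          apply h5
          refine Finset.prod_eq_zero (Finset.mem_univ i) ?_
          rw [h6]
          norm_num
      rw [h5, zero_mul]
    · intro h6
      exact absurd (Finset.mem_univ _) h6
  obtain ⟨T, hT⟩ : ∃ T : Finset (Fin n), ∑ σ : Gal(F/ℚ), sgT s σ T * χ σ ≠ 0 := by
    by_contra hcon
    push Not at hcon
    rw [Finset.sum_eq_zero fun T _ => hcon T] at hsum
    exact absurd hsum.symm (by positivity)
  have h7 : ∀ τ : Gal(F/ℚ), sgT s τ T * χ τ = 1 := by
    intro τ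
    by_contra hτ
    have hτ' : sgT s τ T * χ τ = -1 := by
      have h0 : sgT s τ T * χ τ = 1 ∨ sgT s τ T * χ τ = -1 := by
        rcases sgT_val (s := s) τ T with h1 | h1 <;> rcases hχv τ with h2 | h2 <;>
          rw [h1, h2] <;> norm_num
      exact h0.resolve_left hτ
    apply hT
    have h9 : ∑ σ : Gal(F/ℚ), sgT s σ T * χ σ = ∑ σ : Gal(F/ℚ), sgT s (τ * σ) T * χ (τ * σ) :=
      (Equiv.sum_comp (Equiv.mulLeft τ) fun σ => sgT s σ T * χ σ).symm
    have h10 : ∑ σ : Gal(F/ℚ), sgT s (τ * σ) T * χ (τ * σ) = - ∑ σ : Gal(F/ℚ), sgT s σ T * χ σ := by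
      rw [← Finset.sum_neg_distrib]
      refine Finset.sum_congr rfl fun σ _ => ?_
      rw [sgT_mul h, hχm]
      have : sgT s τ T * sgT s σ T * (χ τ * χ σ) = (sgT s τ T * χ τ) * (sgT s σ T * χ σ) := by ring
      rw [this, hτ']
      ring
    rw [h10] at h9
    omega
  set t : F := ∏ k ∈ T, s k with ht
  have ht2 : t ^ 2 = ((∏ k ∈ T, d k : ℕ) : F) := by
    rw [ht, ← Finset.prod_pow, Finset.prod_congr rfl (fun k _ => h.sq k), ← Nat.cast_prod]
  have hfix : ∀ σ : Gal(F/ℚ), σ (r * t) = r * t := by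
    intro σ
    rw [map_mul, hχ σ, ht, map_prod, Finset.prod_congr rfl (fun k _ => sg_spec h σ k),
      Finset.prod_mul_distrib, ← Int.cast_prod]
    have h11 : ((sgT s σ T * χ σ : ℤ) : F) = 1 := by rw [h7 σ]; simp
    push_cast at h11
    unfold sgT at h11
    push_cast at h11 ⊢
    linear_combination (r * ∏ k ∈ T, s k) * h11
  obtain ⟨c, hc⟩ := (IsGalois.mem_range_algebraMap_iff_fixed (r * t)).2 hfix
  have hc2 : c ^ 2 = (m : ℚ) * ((∏ k ∈ T, d k : ℕ) : ℚ) := by
    apply (algebraMap ℚ F).injective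
    rw [map_pow, hc, mul_pow, hr, ht2, map_mul, map_natCast, map_natCast]
  have hcd : (c.num.natAbs) ^ 2 = m * (∏ k ∈ T, d k) * c.den ^ 2 := by
    have h12 : (c.den : ℚ) ≠ 0 := by exact_mod_cast c.den_nz
    have h13 : c = c.num / c.den := (Rat.num_div_den c).symm
    rw [h13] at hc2
    have h14 : ((c.num ^ 2 : ℤ) : ℚ) = ((m * (∏ k ∈ T, d k) * c.den ^ 2 : ℕ) : ℚ) := by
      push_cast
      rw [div_pow] at hc2
      field_simp at hc2
      push_cast at hc2
      linear_combination hc2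
    have h15 : (c.num ^ 2 : ℤ) = ((m * (∏ k ∈ T, d k) * c.den ^ 2 : ℕ) : ℤ) := by exact_mod_cast h14
    have h16 : ((c.num.natAbs ^ 2 : ℕ) : ℤ) = ((m * (∏ k ∈ T, d k) * c.den ^ 2 : ℕ) : ℤ) := by
      rw [← h15]
      push_cast
      exact sq_abs _
    exact_mod_cast h16
  refine ⟨T, ?_⟩
  unfold DD
  rw [one_mul]
  refine (sf_eq_of hm (c := c.den * m) (b := c.num.natAbs) (mul_ne_zero c.den_nz hm.ne_zero)
    (prod_ne h.ne T) ?_).symm
  rw [hcd]
  ring

end

/-! ### towers of subfields of the reals -/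

/-- the field `ℚ(√d_0, …, √d_{n-1})` -/
noncomputable def KK (d : ℕ → ℕ) (n : ℕ) : IntermediateField ℚ ℝ :=
  IntermediateField.adjoin ℚ {x : ℝ | ∃ i < n, x ^ 2 = (d i : ℝ)}

lemma mem_KK (d : ℕ → ℕ) {n i : ℕ} (hi : i < n) : √(d i : ℝ) ∈ KK d n :=
  IntermediateField.subset_adjoin _ _ ⟨i, hi, Real.sq_sqrt (Nat.cast_nonneg _)⟩

/-- the generators -/
noncomputable def ss (d : ℕ → ℕ) (n : ℕ) (i : Fin n) : KK d n := ⟨√(d i : ℝ), mem_KK d i.2⟩

lemma ss_sq (d : ℕ → ℕ) (n : ℕ) (i : Fin n) : ss d n i ^ 2 = (d i : KK d n) := by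
  apply Subtype.ext
  show (√(d i : ℝ)) ^ 2 = _
  rw [Real.sq_sqrt (Nat.cast_nonneg _)]
  rfl

lemma ss_top (d : ℕ → ℕ) (n : ℕ) : IntermediateField.adjoin ℚ (Set.range (ss d n)) = ⊤ := by
  rw [eq_top_iff]
  rintro ⟨x, hx⟩ -
  have h1 : x ∈ (IntermediateField.adjoin ℚ (Set.range (ss d n))).map (KK d n).val := by
    have h2 : KK d n ≤ (IntermediateField.adjoin ℚ (Set.range (ss d n))).map (KK d n).val := by
      unfold KK
      rw [IntermediateField.adjoin_le_iff]
      rintro y ⟨i, hi, hy⟩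
      have h3 : √(d i : ℝ) ∈ (IntermediateField.adjoin ℚ (Set.range (ss d n))).map (KK d n).val :=
        ⟨ss d n ⟨i, hi⟩, IntermediateField.subset_adjoin _ _ ⟨_, rfl⟩, rfl⟩
      have h4 : y ^ 2 = (√(d i : ℝ)) ^ 2 := by rw [hy, Real.sq_sqrt (Nat.cast_nonneg _)]
      rcases sq_eq_sq_iff_eq_or_eq_neg.1 h4 with h5 | h5
      · rw [h5]; exact h3
      · rw [h5]; exact neg_mem h3
    exact h2 hx
  obtain ⟨y, hy, hyx⟩ := h1
  have : y = ⟨x, hx⟩ := Subtype.ext hyx
  rw [← this]
  exact hy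

lemma KK_succ (d : ℕ → ℕ) (n : ℕ) :
    KK d (n + 1) = (IntermediateField.adjoin (KK d n) {√(d n : ℝ)}).restrictScalars ℚ := by
  apply le_antisymm
  · unfold KK
    rw [IntermediateField.adjoin_le_iff]
    rintro y ⟨i, hi, hy⟩
    rw [SetLike.mem_coe, IntermediateField.mem_restrictScalars]
    rcases Nat.lt_succ_iff_lt_or_eq.1 hi with h1 | h1
    · have h2 : y ∈ KK d n := IntermediateField.subset_adjoin _ _ ⟨i, h1, hy⟩
      exact (IntermediateField.adjoin (KK d n) {√(d n : ℝ)}).algebraMap_mem ⟨y, h2⟩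
    · subst h1
      have h3 : √(d i : ℝ) ∈ IntermediateField.adjoin (KK d i) {√(d i : ℝ)} :=
        IntermediateField.subset_adjoin _ _ (Set.mem_singleton _)
      have h4 : y ^ 2 = (√(d i : ℝ)) ^ 2 := by rw [hy, Real.sq_sqrt (Nat.cast_nonneg _)]
      rcases sq_eq_sq_iff_eq_or_eq_neg.1 h4 with h5 | h5
      · rw [h5]; exact h3
      · rw [h5]; exact neg_mem h3
  · have hle : KK d n ≤ KK d (n + 1) := by
      unfold KK
      apply IntermediateField.adjoin.mono
      rintro y ⟨i, hi, hy⟩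
      exact ⟨i, by omega, hy⟩
    intro x hx
    rw [IntermediateField.mem_restrictScalars] at hx
    induction hx using IntermediateField.adjoin_induction with
    | mem x hx =>
      rw [Set.mem_singleton_iff] at hx
      rw [hx]
      exact mem_KK d (Nat.lt_succ_self n)
    | algebraMap x => exact hle x.2
    | add x y hx hy ihx ihy => exact add_mem ihx ihy
    | inv x hx ih => exact inv_mem ih
    | mul x y hx hy ihx ihy => exact mul_mem ihx ihy

/-- the degree of the next layer -/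
lemma finrank_succ (d : ℕ → ℕ) (n : ℕ) (hn : finrank ℚ (KK d n) = 2 ^ n)
    (h : √(d n : ℝ) ∉ KK d n) : finrank ℚ (KK d (n + 1)) = 2 ^ (n + 1) := by
  have hfd : FiniteDimensional ℚ (KK d n) := FiniteDimensional.of_finrank_pos (by
    rw [hn]; positivity)
  set r : ℝ := √(d n : ℝ) with hr
  have hr2 : r ^ 2 = (d n : ℝ) := Real.sq_sqrt (Nat.cast_nonneg _)
  set P : Polynomial (KK d n) := Polynomial.X ^ 2 - Polynomial.C (d n : KK d n) with hP
  have hPm : P.Monic := Polynomial.monic_X_pow_sub_C _ two_ne_zero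
  have hPd : P.natDegree = 2 := Polynomial.natDegree_X_pow_sub_C
  have haev : Polynomial.aeval r P = 0 := by
    rw [hP, map_sub, map_pow, Polynomial.aeval_X, Polynomial.aeval_C, hr2]
    simp
  have hirr : Irreducible P := by
    apply (Polynomial.Monic.irreducible_iff_roots_eq_zero_of_degree_le_three hPm (by omega)
      (by omega)).2
    rw [Multiset.eq_zero_iff_forall_notMem]
    intro x hx
    rw [Polynomial.mem_roots hPm.ne_zero] at hx
    have h1 : x ^ 2 = (d n : KK d n) := by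
      have h2 : Polynomial.eval x P = 0 := hx
      rw [hP] at h2
      simp only [Polynomial.eval_sub, Polynomial.eval_pow, Polynomial.eval_X,
        Polynomial.eval_C] at h2
      exact sub_eq_zero.1 h2
    have h3 : (x : ℝ) ^ 2 = r ^ 2 := by
      rw [hr2]
      have := congrArg (fun z : KK d n => (z : ℝ)) h1
      simpa using this
    rcases sq_eq_sq_iff_eq_or_eq_neg.1 h3 with h4 | h4
    · apply h
      rw [← h4]
      exact x.2
    · apply h
      have : r = -(x : ℝ) := by rw [h4]; ring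
      rw [this]
      exact neg_mem x.2
  have hmin : minpoly (KK d n) r = P := (minpoly.eq_of_irreducible_of_monic hirr haev hPm).symm
  have hint : IsIntegral (KK d n) r := ⟨P, hPm, haev⟩
  have h5 : finrank (KK d n) (IntermediateField.adjoin (KK d n) {r}) = 2 := by
    rw [IntermediateField.adjoin.finrank hint, hmin, hPd]
  rw [KK_succ]
  have h6 := Module.finrank_mul_finrank ℚ (KK d n) (IntermediateField.adjoin (KK d n) {r})
  rw [hn, h5] at h6
  rw [pow_succ, h6]
  rfl

end Pool.Agent.V8H1.MF
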