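import Pool.Agent.Results.MP_03e5d0_nt.FullClassX49
import Pool.Agent.V8H1.MF.LS
import Pool.Agent.V8H1.MF.Tower

/-!
# Multiquadratic fields: rank and order zero for the twists of `X_0(49)`
-/

set_option autoImplicit false
set_option linter.unusedSectionVars false

open NumberField IsDedekindDomain WeierstrassCurve Module Filter Topology

namespace Pool.Agent.V8H1.MF

open Pool.Agent.Y698 (EX)
open Pool.Agent.Results.MP_4a9ea6_nt.TwoPartTwistsX49 (E twist mat Adm core two_iff)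
open Pool.Agent.Results.MP_92892c_nt.FullClassTwoPartX49 (Family RankZeroShaTwo num)
open Pool.Agent.Results.MP_03e5d0_nt.FullClassX49 (AnalyticRankZero Pattern sel_det an_of)

/-- the curve over `F` -/
abbrev cv (F : Type) [Field F] (D : ℕ) : WeierstrassCurve F := (twist D).map (Int.castRingHom F)

/-- order zero and finitely many points -/
def RP (F : Type) [Field F] [NumberField F] (D : ℕ) : Prop :=
  (∃ Λ : ℂ → ℂ, Differentiable ℂ Λ ∧ (∀ z : ℂ, 2 < z.re → Λ z = (cv F D).LSeries z) ∧ Λ 1 ≠ 0) ∧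
    Finite (cv F D).toAffine.Point

lemma cv_eq (F : Type) [Field F] {D j : ℕ} (hj : D = 1 + 4 * j) : cv F D = EX F (j : F) := by
  have h1 : (3 * (D : ℤ) + 1) / 4 = 1 + 3 * j := by
    rw [hj]
    push_cast
    omega
  unfold cv twist EX
  ext
  · simp
  · show ((Int.castRingHom F) (-((3 * (D : ℤ) + 1) / 4)) : F) = _
    rw [h1]
    simp
  · simp
  · show ((Int.castRingHom F) (-2 * (D : ℤ) ^ 2) : F) = _
    rw [hj]
    simp
  · show ((Int.castRingHom F) (-(D : ℤ) ^ 3) : F) = _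
    rw [hj]
    simp

lemma fam_q4 {D : ℕ} : Family D ↔ Squarefree D ∧ Q4 D := by
  refine and_congr_right fun h => ⟨fun h1 p hp hd => h1 p ?_, fun h1 p hp => ?_⟩
  · exact Nat.mem_primeFactors.2 ⟨hp, hd, h.ne_zero⟩
  · exact h1 p (Nat.prime_of_mem_primeFactors hp) (Nat.dvd_of_mem_primeFactors hp)

/-- the rational data of a twist -/
def Gz (D : ℕ) : Prop := AnalyticRankZero D ∧ Finite (E D).toAffine.Point

section
variable {F : Type} [Field F] [NumberField F] {n : ℕ} {d : Fin n → ℕ} {s : Fin n → F}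

/-- from the rational numbers to the field -/
theorem rp_of (h : MQ F d s) {M : ℕ} (hM : Family M) (hT : ∀ T, Gz (DD d M T)) : RP F M := by
  obtain ⟨hM1, hM4⟩ := fam_q4.1 hM
  have hmod : ∀ T, ∃ i : ℕ, DD d M T = 1 + 4 * i := by
    intro T
    have := q4_mod (DD_ne M T) (q4_DD hM1.ne_zero hM4 h.ne h.q4 T)
    exact ⟨DD d M T / 4, by omega⟩
  choose i hi using hmod
  obtain ⟨j, hj⟩ : ∃ j : ℕ, M = 1 + 4 * j := by
    have := q4_mod hM1.ne_zero hM4
    exact ⟨M / 4, by omega⟩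
  have hE : ∀ T, E (DD d M T) = EX ℚ ((i T : ℕ) : ℚ) := fun T => cv_eq ℚ (hi T)
  constructor
  · choose Λ h1 h2 h3 using fun T => (hT T).1
    refine ⟨fun z => ∏ T, Λ T z, Differentiable.fun_finsetProd fun T _ => h1 T, ?_, ?_⟩
    · intro z hz
      rw [cv_eq F hj, lseries_prod h hM1 hM4 hj hi hz]
      refine Finset.prod_congr rfl fun T _ => ?_
      rw [h2 T z hz, hE T]
    · exact Finset.prod_ne_zero_iff.2 fun T _ => h3 T
  · have hf : ∀ T, Finite (CC ℚ ((i T : ℕ) : ℚ)).toAffine.Point := by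
      intro T
      have h1 := (hT T).2
      rw [hE T] at h1
      exact h1
    have h2 := finite_points h hj fun T => ⟨i T, hi T, hf T⟩
    have e : (CC ℚ (j : ℚ)).baseChange F = cv F M := by
      rw [cv_eq F hj]
      have := CC_map (algebraMap ℚ F) (j : ℚ)
      rw [map_natCast] at this
      exact this
    rw [e] at h2
    exact h2

lemma gz_det {D : ℕ} (hD : Family D) (h : (mat D).det ≠ 0) : Gz D :=
  ⟨an_of hD h, ((sel_det hD).2 h).1⟩

lemma fam_DD (h : MQ F d s) {M : ℕ} (hM : Family M) (T : Finset (Fin n)) : Family (DD d M T) := by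
  obtain ⟨hM1, hM4⟩ := fam_q4.1 hM
  exact fam_q4.2 ⟨squarefree_sf _, q4_DD hM1.ne_zero hM4 h.ne h.q4 T⟩

end

/-! ### the counting -/

lemma tw_eq {M D : ℕ} (hM : Family M) (hD : Family D) :
    Pool.Agent.Results.MP_03e5d0_nt.FullClassX49.tw M D = sf (M * D) := by
  obtain ⟨h1, h2⟩ := Pool.Agent.Results.MP_03e5d0_nt.FullClassX49.result.1 M D hM hD
  have hM0 := hM.1.ne_zero
  rw [h2]
  exact (sf_of_sq h1.1 (by
    intro h0
    have := Nat.gcd_pos_of_pos_left D (Nat.pos_of_ne_zero hM0)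
    omega)).symm

lemma num_mono {P Q : ℕ → Prop} (h : ∀ D, Family D → P D → Q D) (X : ℕ) : num P X ≤ num Q X := by
  classical
  unfold num
  refine Finset.card_le_card fun D hD => ?_
  rw [Finset.mem_filter] at hD ⊢
  exact ⟨hD.1, hD.2.1, h D hD.2.1 hD.2.2⟩

/-- simultaneous vanishing for a finite set of twists: a positive proportion -/
theorem count (S : Finset ℕ) (hS : ∀ M ∈ S, Family M) {Q : ℕ → Prop}
    (hQ : ∀ D, Family D → (∀ M ∈ S, (mat (sf (M * D))).det ≠ 0) → Q D) {N : ℕ} (hN : S.card ≤ N) :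
    (∀ ε : ℝ, 0 < ε → ∃ X₀ : ℕ, ∀ X : ℕ, X₀ ≤ X →
      (Pool.Agent.Results.MP_03e5d0_nt.FullClassX49.c ^ N - ε) * (num (fun _ => True) X : ℝ) ≤
        (num Q X : ℝ)) ∧
    ∃ (a : ℝ) (X₀ : ℕ), 0 < a ∧ ∀ X : ℕ, X₀ ≤ X →
      a * X / Real.sqrt (Real.log X) ≤ (num Q X : ℝ) := by
  obtain ⟨-, h1, h2, h3⟩ := Pool.Agent.Results.MP_03e5d0_nt.FullClassX49.result
  obtain ⟨h4, a, X₀, ha, h5⟩ := h1 S S hS (Finset.Subset.refl S)
  rw [Nat.sub_self, pow_zero, mul_one] at h4
  have hle : ∀ X, num (Pattern S S) X ≤ num Q X := by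
    refine fun X => num_mono (fun D hD hP => hQ D hD fun M hM => ?_) X
    have h6 := (hP.2 M hM).2 hM
    rw [tw_eq (hS M hM) hD] at h6
    have h7 : Family (sf (M * D)) := by
      rw [← tw_eq (hS M hM) hD]
      exact (Pool.Agent.Results.MP_03e5d0_nt.FullClassX49.result.1 M D (hS M hM) hD).1
    exact (sel_det h7).1 h6
  set c := Pool.Agent.Results.MP_03e5d0_nt.FullClassX49.c with hc
  have hpow : c ^ N ≤ c ^ S.card :=
    pow_le_pow_of_le_one (by linarith) (by linarith) hN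
  refine ⟨fun ε hε => ?_, a, X₀, ha, fun X hX => (h5 X hX).trans (by exact_mod_cast hle X)⟩
  have h6 := h4.eventually (lt_mem_nhds (show c ^ S.card - ε < c ^ S.card by linarith))
  obtain ⟨X₁, hX₁⟩ := Filter.eventually_atTop.1 h6
  refine ⟨X₁, fun X hX => ?_⟩
  have h7 := hX₁ X hX
  have h8 : (0 : ℝ) ≤ (num (fun _ => True) X : ℝ) := Nat.cast_nonneg _
  have h9 : (c ^ N - ε) * (num (fun _ => True) X : ℝ) ≤
      (c ^ S.card - ε) * (num (fun _ => True) X : ℝ) :=
    mul_le_mul_of_nonneg_right (by linarith) h8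
  refine h9.trans ?_
  have h10 : (c ^ S.card - ε) * (num (fun _ => True) X : ℝ) ≤ (num (Pattern S S) X : ℝ) := by
    rcases h8.eq_or_lt with h11 | h11
    · rw [← h11, mul_zero]
      exact Nat.cast_nonneg _
    · rw [← le_div_iff₀ h11]
      exact h7.le
  exact h10.trans (by exact_mod_cast hle X)

lemma grow {a : ℝ} (ha : 0 < a) :
    Tendsto (fun X : ℕ => a * X / Real.sqrt (Real.log X)) atTop atTop := by
  have h8 : ∀ᶠ X : ℕ in atTop, a * Real.sqrt X ≤ a * X / Real.sqrt (Real.log X) := by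
    filter_upwards [eventually_ge_atTop 3] with X hX
    have hX3 : (3 : ℝ) ≤ X := by exact_mod_cast hX
    have hlog : 0 < Real.log X := Real.log_pos (by linarith)
    rw [le_div_iff₀ (Real.sqrt_pos.2 hlog), mul_assoc, ← Real.sqrt_mul (by linarith)]
    apply mul_le_mul_of_nonneg_left _ ha.le
    rw [Real.sqrt_le_left (by linarith), pow_two]
    apply mul_le_mul_of_nonneg_left _ (by linarith)
    exact (Real.log_le_sub_one_of_pos (by linarith)).trans (by linarith)
  refine tendsto_atTop_mono' _ h8 ?_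
  apply Tendsto.const_mul_atTop ha
  exact Real.tendsto_sqrt_atTop.comp tendsto_natCast_atTop_atTop

/-- the class is infinite -/
theorem all_large (B : ℝ) : ∃ X₀ : ℕ, ∀ X : ℕ, X₀ ≤ X → B ≤ (num (fun _ => True) X : ℝ) := by
  obtain ⟨-, a, X₀, ha, h1⟩ := count ∅ (by simp) (Q := fun _ => True) (fun _ _ _ => trivial) le_rfl
  obtain ⟨X₁, hX₁⟩ := Filter.eventually_atTop.1 ((grow ha).eventually_ge_atTop B)
  exact ⟨max X₀ X₁, fun X hX => (hX₁ X (le_trans (le_max_right _ _) hX)).trans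
    (h1 X (le_trans (le_max_left _ _) hX))⟩

lemma num_add {P Q : ℕ → Prop} {Z : Finset ℕ} (h : ∀ D, P D → Q D ∨ D ∈ Z) (X : ℕ) :
    num P X ≤ num Q X + Z.card := by
  classical
  unfold num
  refine le_trans ?_ (Finset.card_union_le _ _)
  refine Finset.card_le_card ?_
  intro D hD
  rw [Finset.mem_filter] at hD
  rw [Finset.mem_union, Finset.mem_filter]
  rcases h D hD.2.2 with h5 | h5
  · exact Or.inl ⟨hD.1, hD.2.1, h5⟩
  · exact Or.inr h5

/-- simultaneous vanishing, with a finite number of exceptions -/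
theorem count' (S : Finset ℕ) (hS : ∀ M ∈ S, Family M) {Q : ℕ → Prop} (Z : Finset ℕ)
    (hQ : ∀ D, Family D → D ∉ Z → (∀ M ∈ S, (mat (sf (M * D))).det ≠ 0) → Q D) {N : ℕ}
    (hN : S.card ≤ N) (ε : ℝ) (hε : 0 < ε) : ∃ X₀ : ℕ, ∀ X : ℕ, X₀ ≤ X →
      (Pool.Agent.Results.MP_03e5d0_nt.FullClassX49.c ^ N - ε) * (num (fun _ => True) X : ℝ) ≤
        (num Q X : ℝ) := by
  classical
  obtain ⟨h1, -⟩ := count S hS (Q := fun D => Q D ∨ D ∈ Z) (fun D hD h => by
    by_cases hZ : D ∈ Z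
    · exact Or.inr hZ
    · exact Or.inl (hQ D hD hZ h)) hN
  obtain ⟨X₀, hX₀⟩ := h1 (ε / 2) (by linarith)
  obtain ⟨X₁, hX₁⟩ := all_large ((Z.card : ℝ) / (ε / 2))
  refine ⟨max X₀ X₁, fun X hX => ?_⟩
  have h2 := hX₀ X (le_trans (le_max_left _ _) hX)
  have h3 := hX₁ X (le_trans (le_max_right _ _) hX)
  have h4 : num (fun D => Q D ∨ D ∈ Z) X ≤ num Q X + Z.card :=
    num_add (P := fun D => Q D ∨ D ∈ Z) (Q := Q) (fun _ h => h) X
  have h5 : ((num (fun D => Q D ∨ D ∈ Z) X : ℕ) : ℝ) ≤ num Q X + Z.card := by exact_mod_cast h4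
  have h6 : (Z.card : ℝ) ≤ (num (fun _ => True) X : ℝ) * (ε / 2) := by
    rwa [div_le_iff₀ (by linarith)] at h3
  linarith

/-- arbitrarily large numbers -/
theorem exists_large (S : Finset ℕ) (hS : ∀ M ∈ S, Family M) (B : ℕ) :
    ∃ D, B < D ∧ Family D ∧ ∀ M ∈ S, (mat (sf (M * D))).det ≠ 0 := by
  classical
  by_contra hcon
  push Not at hcon
  obtain ⟨-, a, X₀, ha, h1⟩ := count S hS (Q := fun D => ∀ M ∈ S, (mat (sf (M * D))).det ≠ 0)
    (fun D _ h => h) le_rfl
  have h2 : ∀ X : ℕ, num (fun D => ∀ M ∈ S, (mat (sf (M * D))).det ≠ 0) X ≤ B := by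
    intro X
    unfold num
    have h3 : ((Finset.Icc 1 X).filter fun D => Family D ∧ ∀ M ∈ S, (mat (sf (M * D))).det ≠ 0) ⊆
        Finset.Icc 1 B := by
      intro D hD
      rw [Finset.mem_filter, Finset.mem_Icc] at hD
      rw [Finset.mem_Icc]
      refine ⟨hD.1.1, ?_⟩
      by_contra h4
      obtain ⟨M, hM, h5⟩ := hcon D (by omega) hD.2.1
      exact hD.2.2 M hM h5
    have h6 := Finset.card_le_card h3
    rw [Nat.card_Icc] at h6
    simpa using h6
  obtain ⟨X, hX1, hX2⟩ := (((grow ha).eventually_gt_atTop (B : ℝ)).and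
    (eventually_ge_atTop X₀)).exists
  have h9 := h1 X hX2
  have h10 : ((num (fun D => ∀ M ∈ S, (mat (sf (M * D))).det ≠ 0) X : ℕ) : ℝ) ≤ B := by
    exact_mod_cast h2 X
  linarith

end Pool.Agent.V8H1.MF
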