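import Pool.Agent.V8H1.MF.Sym

/-!
# Multiquadratic fields: the Galois group
-/

set_option autoImplicit false

open NumberField Module

namespace Pool.Agent.V8H1.MF

open scoped symmDiff

/-- `F = ℚ(√d_1, …, √d_n)` has degree `2 ^ n` -/
structure MQ (F : Type) [Field F] [NumberField F] {n : ℕ} (d : Fin n → ℕ) (s : Fin n → F) : Prop where
  sqf : ∀ i, Squarefree (d i)
  q4 : ∀ i, Q4 (d i)
  sq : ∀ i, s i ^ 2 = (d i : F)
  top : IntermediateField.adjoin ℚ (Set.range s) = ⊤
  deg : finrank ℚ F = 2 ^ n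

section
variable {F : Type} [Field F] [NumberField F] {n : ℕ} {d : Fin n → ℕ} {s : Fin n → F}

lemma MQ.ne (h : MQ F d s) (i : Fin n) : d i ≠ 0 := (h.sqf i).ne_zero

lemma MQ.sne (h : MQ F d s) (i : Fin n) : s i ≠ 0 := by
  intro h0
  have h1 := h.sq i
  rw [h0, zero_pow two_ne_zero] at h1
  exact h.ne i (by exact_mod_cast h1.symm)

lemma MQ.gal (h : MQ F d s) : IsGalois ℚ F := by
  classical
  set P : Polynomial ℚ := ∏ i, (Polynomial.X ^ 2 - Polynomial.C (d i : ℚ)) with hP
  have hPne : P ≠ 0 := by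
    rw [hP, Finset.prod_ne_zero_iff]
    intro i _
    exact (Polynomial.monic_X_pow_sub_C _ two_ne_zero).ne_zero
  have hsplit : (P.map (algebraMap ℚ F)).Splits := by
    rw [hP, Polynomial.map_prod]
    refine Polynomial.Splits.prod fun i _ => ?_
    have e : (Polynomial.X ^ 2 - Polynomial.C (d i : ℚ)).map (algebraMap ℚ F) =
        (Polynomial.X - Polynomial.C (s i)) * (Polynomial.X + Polynomial.C (s i)) := by
      rw [Polynomial.map_sub, Polynomial.map_pow, Polynomial.map_X, Polynomial.map_C, map_natCast,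
        ← h.sq i, Polynomial.C_pow]
      ring
    rw [e]
    exact (Polynomial.Splits.X_sub_C _).mul (Polynomial.Splits.X_add_C _)
  have hroot : ∀ i, s i ∈ P.rootSet F := by
    intro i
    rw [Polynomial.mem_rootSet]
    refine ⟨hPne, ?_⟩
    rw [hP, map_prod]
    refine Finset.prod_eq_zero (Finset.mem_univ i) ?_
    rw [map_sub, map_pow, Polynomial.aeval_X, Polynomial.aeval_C, h.sq i, map_natCast, sub_self]
  have hsf : Polynomial.IsSplittingField ℚ F P := by
    refine ⟨hsplit, ?_⟩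
    have h1 : Algebra.adjoin ℚ (Set.range s) = ⊤ := by
      have h2 := IntermediateField.adjoin_toSubalgebra_of_isAlgebraic (F := ℚ) (E := F)
        (S := Set.range s) (fun x _ => Algebra.IsAlgebraic.isAlgebraic x)
      rw [← h2, h.top, IntermediateField.top_toSubalgebra]
    rw [eq_top_iff, ← h1]
    apply Algebra.adjoin_mono
    rintro _ ⟨i, rfl⟩
    exact hroot i
  have hn : Normal ℚ F := Normal.of_isSplittingField P
  exact ⟨⟩

/-- the sign of `σ` at `√d_i` -/
noncomputable def sg (s : Fin n → F) (σ : Gal(F/ℚ)) (i : Fin n) : ℤ := by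
  classical exact if σ (s i) = s i then 1 else -1

lemma sg_val (σ : Gal(F/ℚ)) (i : Fin n) : sg s σ i = 1 ∨ sg s σ i = -1 := by
  unfold sg
  split_ifs
  · exact Or.inl rfl
  · exact Or.inr rfl

lemma sg_spec (h : MQ F d s) (σ : Gal(F/ℚ)) (i : Fin n) : σ (s i) = (sg s σ i : F) * s i := by
  unfold sg
  split_ifs with h1
  · rw [h1]; simp
  · have h2 : (σ (s i)) ^ 2 = (s i) ^ 2 := by
      rw [← map_pow, h.sq i, map_natCast]
    rcases sq_eq_sq_iff_eq_or_eq_neg.1 h2 with h3 | h3
    · exact absurd h3 h1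
    · rw [h3]; simp

lemma sg_mul (h : MQ F d s) (σ τ : Gal(F/ℚ)) (i : Fin n) :
    sg s (σ * τ) i = sg s σ i * sg s τ i := by
  have h1 := sg_spec h (σ * τ) i
  rw [AlgEquiv.mul_apply, sg_spec h τ, map_mul, map_intCast, sg_spec h σ] at h1
  have h2 : ((sg s (σ * τ) i : ℤ) : F) = ((sg s σ i * sg s τ i : ℤ) : F) := by
    apply mul_right_cancel₀ (h.sne i)
    rw [← h1]
    push_cast
    ring
  exact_mod_cast h2

lemma sg_inj (h : MQ F d s) {σ : Gal(F/ℚ)} (hσ : ∀ i, sg s σ i = 1) : σ = 1 := by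
  have h1 : ∀ x : F, σ x = x := by
    intro x
    have hx : x ∈ IntermediateField.adjoin ℚ (Set.range s) := by
      rw [h.top]; trivial
    induction hx using IntermediateField.adjoin_induction with
    | mem x hx =>
      obtain ⟨i, rfl⟩ := hx
      rw [sg_spec h, hσ i]
      simp
    | algebraMap x => exact σ.commutes x
    | add x y hx hy ihx ihy => rw [map_add, ihx, ihy]
    | inv x hx ih => rw [map_inv₀, ih]
    | mul x y hx hy ihx ihy => rw [map_mul, ihx, ihy]
  exact AlgEquiv.ext h1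

/-- the sign of `σ` at `∏_{i ∈ T} √d_i` -/
noncomputable def sgT (s : Fin n → F) (σ : Gal(F/ℚ)) (T : Finset (Fin n)) : ℤ := ∏ i ∈ T, sg s σ i

lemma sgT_val (σ : Gal(F/ℚ)) (T : Finset (Fin n)) : sgT s σ T = 1 ∨ sgT s σ T = -1 := by
  classical
  unfold sgT
  induction T using Finset.induction_on with
  | empty => left; simp
  | insert i T hi ih =>
    rw [Finset.prod_insert hi]
    rcases sg_val (s := s) σ i with h | h <;> rcases ih with h' | h' <;> rw [h, h'] <;> simp

lemma sgT_mul (h : MQ F d s) (σ τ : Gal(F/ℚ)) (T : Finset (Fin n)) :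
    sgT s (σ * τ) T = sgT s σ T * sgT s τ T := by
  unfold sgT
  rw [← Finset.prod_mul_distrib]
  exact Finset.prod_congr rfl fun i _ => sg_mul h σ τ i

lemma sgT_one (h : MQ F d s) (T : Finset (Fin n)) : sgT s 1 T = 1 := by
  unfold sgT
  refine Finset.prod_eq_one fun i _ => ?_
  have := sg_mul h 1 1 i
  rw [mul_one] at this
  rcases sg_val (s := s) 1 i with h1 | h1
  · exact h1
  · rw [h1] at this
    norm_num at this

/-- orthogonality -/
lemma orth (h : MQ F d s) (H : Subgroup Gal(F/ℚ)) (A : Finset (Finset (Fin n)))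
    (hA : ∀ T ∈ A, ∀ σ ∈ H, sgT s σ T = 1) : A.card * Nat.card H ≤ 2 ^ n := by
  classical
  have : Finite Gal(F/ℚ) := inferInstance
  let _ : Fintype H := Fintype.ofFinite H
  have h1 : ∑ T : Finset (Fin n), ∑ σ : H, sgT s σ.1 T = 2 ^ n := by
    rw [Finset.sum_comm]
    have h2 : ∀ σ : H, ∑ T : Finset (Fin n), sgT s σ.1 T = ∏ i, (1 + sg s σ.1 i) := by
      intro σ
      rw [Finset.prod_one_add, Finset.powerset_univ]
      rfl
    simp_rw [h2]
    rw [Finset.sum_eq_single (1 : H)]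
    · have h3 : ∀ i : Fin n, 1 + sg s ((1 : H) : Gal(F/ℚ)) i = 2 := by
        intro i
        have := sgT_one h {i}
        unfold sgT at this
        rw [Finset.prod_singleton] at this
        have h4 : sg s ((1 : H) : Gal(F/ℚ)) i = 1 := this
        rw [h4]
        norm_num
      rw [Finset.prod_congr rfl (fun i _ => h3 i), Finset.prod_const, Finset.card_univ,
        Fintype.card_fin]
    · intro σ _ hσ
      by_contra h5
      apply hσ
      apply Subtype.ext
      refine sg_inj h fun i => ?_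
      rcases sg_val (s := s) σ.1 i with h6 | h6
      · exact h6
      · exfalso
        apply h5
        refine Finset.prod_eq_zero (Finset.mem_univ i) ?_
        rw [h6]
        norm_num
    · intro h6
      exact absurd (Finset.mem_univ _) h6
  have h7 : ∀ T : Finset (Fin n), 0 ≤ ∑ σ : H, sgT s σ.1 T := by
    intro T
    by_cases h8 : ∀ σ : H, sgT s σ.1 T = 1
    · exact Finset.sum_nonneg fun σ _ => by rw [h8 σ]; norm_num
    · push Not at h8
      obtain ⟨τ, hτ⟩ := h8
      have hτ' : sgT s τ.1 T = -1 := (sgT_val τ.1 T).resolve_left hτ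
      have h9 : ∑ σ : H, sgT s σ.1 T = ∑ σ : H, sgT s (τ * σ : H).1 T :=
        (Equiv.sum_comp (Equiv.mulLeft τ) fun σ : H => sgT s σ.1 T).symm
      have h10 : ∑ σ : H, sgT s (τ * σ : H).1 T = - ∑ σ : H, sgT s σ.1 T := by
        rw [← Finset.sum_neg_distrib]
        refine Finset.sum_congr rfl fun σ _ => ?_
        rw [Subgroup.coe_mul, sgT_mul h, hτ']
        ring
      rw [h10] at h9
      omega
  have h11 : ∑ T ∈ A, ∑ σ : H, sgT s σ.1 T = A.card * Nat.card H := by
    rw [Finset.sum_congr rfl (g := fun _ => (Nat.card H : ℤ))]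
    · rw [Finset.sum_const, nsmul_eq_mul]
    · intro T hT
      rw [Finset.sum_congr rfl (g := fun _ => (1 : ℤ)) fun σ _ => hA T hT σ.1 σ.2, Finset.sum_const,
        Finset.card_univ, Nat.card_eq_fintype_card]
      simp
  have h12 : ∑ T ∈ A, ∑ σ : H, sgT s σ.1 T ≤ ∑ T : Finset (Fin n), ∑ σ : H, sgT s σ.1 T :=
    Finset.sum_le_sum_of_subset_of_nonneg (Finset.subset_univ _) fun T _ _ => h7 T
  rw [h11, h1] at h12
  exact_mod_cast h12

/-- the integer `(1 + √m_T) / 2` -/
lemma exists_w (h : MQ F d s) (T : Finset (Fin n)) : ∃ w : 𝓞 F,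
    w ^ 2 - w = ((((DD d 1 T : ℕ) : ℤ) - 1) / 4 : ℤ) ∧
    ∀ σ : Gal(F/ℚ), sgT s σ T = -1 → σ • w = 1 - w := by
  obtain ⟨b, hb, h1⟩ := DD_spec (d := d) one_ne_zero h.ne T
  rw [one_mul] at h1
  set m := DD d 1 T with hm
  set t : F := ∏ i ∈ T, s i with ht
  have ht2 : t ^ 2 = (m : F) * (b : F) ^ 2 := by
    rw [ht, ← Finset.prod_pow, Finset.prod_congr rfl (fun i _ => h.sq i)]
    rw [← Nat.cast_prod, h1]
    push_cast
    ring
  have hb' : (b : F) ≠ 0 := Nat.cast_ne_zero.2 hb
  set u : F := t / b with hu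
  have hu2 : u ^ 2 = (m : F) := by
    rw [hu, div_pow, ht2]
    field_simp
  have hm4 : m % 4 = 1 := q4_mod (DD_ne _ _) (q4_DD one_ne_zero (by
    intro p hp hd
    exact absurd (Nat.dvd_one.1 hd) hp.one_lt.ne') h.ne h.q4 T)
  obtain ⟨j, hj⟩ : ∃ j : ℕ, m = 1 + 4 * j := ⟨m / 4, by omega⟩
  have hj' : ((m : ℤ) - 1) / 4 = j := by
    rw [hj]; push_cast; omega
  have hw2 : ((1 + u) / 2) ^ 2 - (1 + u) / 2 = (j : F) := by
    have h3 : u ^ 2 = 1 + 4 * (j : F) := by rw [hu2, hj]; push_cast; ring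
    field_simp
    linear_combination h3
  have hint : IsIntegral ℤ ((1 + u) / 2) := by
    refine ⟨Polynomial.X ^ 2 - Polynomial.X - Polynomial.C (j : ℤ), ?_, ?_⟩
    · monicity!
    · simp only [Polynomial.eval₂_sub, Polynomial.eval₂_pow, Polynomial.eval₂_X, Polynomial.eval₂_C]
      rw [hw2]
      simp
  obtain ⟨w, hw⟩ : ∃ w : 𝓞 F, algebraMap (𝓞 F) F w = (1 + u) / 2 := ⟨⟨(1 + u) / 2, hint⟩, rfl⟩
  refine ⟨w, ?_, ?_⟩
  · apply FaithfulSMul.algebraMap_injective (𝓞 F) F
    rw [hj', map_sub, map_pow, hw, hw2, map_intCast]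
    simp
  · intro σ hσ
    have h4 : σ u = -u := by
      rw [hu, map_div₀, map_natCast, ht, map_prod, Finset.prod_congr rfl (fun i _ => sg_spec h σ i),
        Finset.prod_mul_distrib, ← Int.cast_prod]
      have : ∏ i ∈ T, sg s σ i = -1 := hσ
      rw [this]
      push_cast
      ring
    apply FaithfulSMul.algebraMap_injective (𝓞 F) F
    have h5 : algebraMap (𝓞 F) F (σ • w) = σ (algebraMap (𝓞 F) F w) := rfl
    rw [h5, hw, map_div₀, map_add, map_one, h4, map_ofNat, map_sub, map_one, hw]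
    field_simp
    ring

end

end Pool.Agent.V8H1.MF
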