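import Mathlib

/-!
# Squarefree parts
-/

set_option autoImplicit false

namespace Pool.Agent.V8H1.MF

open scoped symmDiff

/-- the squarefree part of `N`: the product of the primes with an odd exponent in `N` -/
def sf (N : ℕ) : ℕ := ∏ p ∈ N.primeFactors.filter (fun p => Odd (N.factorization p)), p

lemma sf_pos (N : ℕ) : sf N ≠ 0 := by
  unfold sf
  rw [Finset.prod_ne_zero_iff]
  intro p hp
  exact (Nat.prime_of_mem_primeFactors (Finset.mem_filter.1 hp).1).ne_zero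

lemma dvd_sf {N p : ℕ} (hp : p.Prime) : p ∣ sf N ↔ Odd (N.factorization p) := by
  unfold sf
  rw [Prime.dvd_finsetProd_iff hp.prime]
  constructor
  · rintro ⟨q, hq, hpq⟩
    rw [Finset.mem_filter] at hq
    have : p = q := (Nat.prime_dvd_prime_iff_eq hp (Nat.prime_of_mem_primeFactors hq.1)).1 hpq
    rw [this]
    exact hq.2
  · intro h
    refine ⟨p, Finset.mem_filter.2 ⟨?_, h⟩, dvd_rfl⟩
    rw [← Nat.support_factorization, Finsupp.mem_support_iff]
    intro h0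
    rw [h0] at h
    exact absurd h (by decide)

lemma squarefree_sf (N : ℕ) : Squarefree (sf N) := by
  unfold sf
  rw [Nat.squarefree_iff_prime_squarefree]
  intro p hp h
  have h1 : p ∈ N.primeFactors.filter (fun p => Odd (N.factorization p)) := by
    obtain ⟨q, hq, hpq⟩ := (Prime.dvd_finsetProd_iff hp.prime _).1 ((dvd_mul_right p p).trans h)
    rwa [(Nat.prime_dvd_prime_iff_eq hp (Nat.prime_of_mem_primeFactors
      (Finset.mem_filter.1 hq).1)).1 hpq]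
  rw [← Finset.mul_prod_erase _ _ h1] at h
  have h2 := Nat.dvd_of_mul_dvd_mul_left hp.pos h
  obtain ⟨q, hq, hpq⟩ := (Prime.dvd_finsetProd_iff hp.prime _).1 h2
  rw [Finset.mem_erase, Finset.mem_filter] at hq
  exact hq.1 ((Nat.prime_dvd_prime_iff_eq hp (Nat.prime_of_mem_primeFactors hq.2.1)).1 hpq).symm

/-- two squarefree numbers with the same prime factors are equal -/
lemma sqf_ext {a b : ℕ} (ha : Squarefree a) (hb : Squarefree b)
    (h : ∀ p : ℕ, p.Prime → (p ∣ a ↔ p ∣ b)) : a = b := by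
  have h1 : a.primeFactors = b.primeFactors := by
    ext p
    rw [Nat.mem_primeFactors, Nat.mem_primeFactors]
    constructor
    · rintro ⟨hp, hd, -⟩
      exact ⟨hp, (h p hp).1 hd, hb.ne_zero⟩
    · rintro ⟨hp, hd, -⟩
      exact ⟨hp, (h p hp).2 hd, ha.ne_zero⟩
  rw [← Nat.prod_primeFactors_of_squarefree ha, h1, Nat.prod_primeFactors_of_squarefree hb]

lemma sf_of_sq {a b : ℕ} (ha : Squarefree a) (hb : b ≠ 0) : sf (a * b ^ 2) = a := by
  refine sqf_ext (squarefree_sf _) ha fun p hp => ?_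
  rw [dvd_sf hp, Nat.factorization_mul ha.ne_zero (pow_ne_zero 2 hb), Nat.factorization_pow]
  simp only [Finsupp.coe_add, Pi.add_apply, Finsupp.coe_smul, Pi.smul_apply, smul_eq_mul]
  have h1 : (a.factorization p) ≤ 1 := (Nat.squarefree_iff_factorization_le_one ha.ne_zero).1 ha p
  rw [Nat.odd_add]
  constructor
  · intro h
    have h2 : Odd (a.factorization p) := h.2 (even_two_mul _)
    exact Nat.dvd_of_factorization_pos (fun h0 => by rw [h0] at h2; exact absurd h2 (by decide))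
  · intro h
    have h2 : 1 ≤ a.factorization p := (hp.dvd_iff_one_le_factorization ha.ne_zero).1 h
    have h3 : a.factorization p = 1 := le_antisymm h1 h2
    rw [h3]
    exact iff_of_true (by decide) (even_two_mul _)

lemma sf_spec {N : ℕ} (hN : N ≠ 0) : ∃ b : ℕ, b ≠ 0 ∧ N = sf N * b ^ 2 := by
  obtain ⟨a, b, h1, h2⟩ := Nat.sq_mul_squarefree N
  have hb : b ≠ 0 := by
    rintro rfl
    apply hN
    rw [← h1]
    ring
  refine ⟨b, hb, ?_⟩
  have h3 : N = a * b ^ 2 := by rw [← h1, mul_comm]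
  rw [h3, sf_of_sq h2 hb]

lemma sf_eq_of {N a b c : ℕ} (ha : Squarefree a) (hc : c ≠ 0) (hN : N ≠ 0)
    (h : N * c ^ 2 = a * b ^ 2) : sf N = a := by
  obtain ⟨e, he, h1⟩ := sf_spec hN
  have hb : b ≠ 0 := by
    rintro rfl
    have : N * c ^ 2 ≠ 0 := mul_ne_zero hN (pow_ne_zero 2 hc)
    apply this
    rw [h]
    ring
  have h2 : sf N * (e * c) ^ 2 = a * b ^ 2 := by
    rw [← h]
    conv_rhs => rw [h1]
    ring
  rw [← sf_of_sq (squarefree_sf N) (mul_ne_zero he hc), h2, sf_of_sq ha hb]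

lemma sf_mul_sf {A B : ℕ} (hA : A ≠ 0) (hB : B ≠ 0) : sf (sf A * sf B) = sf (A * B) := by
  obtain ⟨a, ha, h1⟩ := sf_spec hA
  obtain ⟨b, hb, h2⟩ := sf_spec hB
  obtain ⟨c, hc, h3⟩ := sf_spec (mul_ne_zero hA hB)
  refine sf_eq_of (squarefree_sf _) (c := a * b) (b := c) (mul_ne_zero ha hb)
    (mul_ne_zero (sf_pos _) (sf_pos _)) ?_
  rw [← h3]
  conv_rhs => rw [h1, h2]
  ring

lemma sf_mul_sq {A b : ℕ} (hA : A ≠ 0) (hb : b ≠ 0) : sf (A * b ^ 2) = sf A := by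
  obtain ⟨a, ha, h1⟩ := sf_spec hA
  refine sf_eq_of (squarefree_sf _) (c := 1) (b := a * b) one_ne_zero
    (mul_ne_zero hA (pow_ne_zero 2 hb)) ?_
  conv_lhs => rw [h1]
  ring

lemma sf_self {a : ℕ} (ha : Squarefree a) : sf a = a := by
  have := sf_of_sq ha (b := 1) one_ne_zero
  simpa using this

lemma sf_dvd {N : ℕ} (hN : N ≠ 0) : sf N ∣ N := by
  obtain ⟨a, -, h1⟩ := sf_spec hN
  exact ⟨_, h1⟩

section
variable {n : ℕ} (d : Fin n → ℕ)

/-- the squarefree part of `M ∏_{i ∈ T} d_i` -/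
def DD (M : ℕ) (T : Finset (Fin n)) : ℕ := sf (M * ∏ i ∈ T, d i)

variable {d}

lemma DD_sq (M : ℕ) (T : Finset (Fin n)) : Squarefree (DD d M T) := squarefree_sf _

lemma prod_ne (hd : ∀ i, d i ≠ 0) (T : Finset (Fin n)) : ∏ i ∈ T, d i ≠ 0 :=
  Finset.prod_ne_zero_iff.2 fun i _ => hd i

lemma DD_spec {M : ℕ} (hM : M ≠ 0) (hd : ∀ i, d i ≠ 0) (T : Finset (Fin n)) :
    ∃ b : ℕ, b ≠ 0 ∧ M * ∏ i ∈ T, d i = DD d M T * b ^ 2 :=
  sf_spec (mul_ne_zero hM (prod_ne hd T))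

lemma DD_symm {M : ℕ} (hM : M ≠ 0) (hd : ∀ i, d i ≠ 0) (T U : Finset (Fin n)) :
    DD d M (T ∆ U) = sf (DD d M T * DD d 1 U) := by
  classical
  unfold DD
  rw [one_mul, sf_mul_sf (mul_ne_zero hM (prod_ne hd T)) (prod_ne hd U)]
  have h1 : (∏ i ∈ T, d i) * ∏ i ∈ U, d i = (∏ i ∈ T ∆ U, d i) * (∏ i ∈ T ∩ U, d i) ^ 2 := by
    have e1 : ∏ i ∈ T, d i = (∏ i ∈ T \ U, d i) * ∏ i ∈ T ∩ U, d i := by
      rw [mul_comm]
      exact (Finset.prod_inter_mul_prod_sdiff T U _).symm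
    have e2 : ∏ i ∈ U, d i = (∏ i ∈ U \ T, d i) * ∏ i ∈ T ∩ U, d i := by
      rw [mul_comm, Finset.inter_comm]
      exact (Finset.prod_inter_mul_prod_sdiff U T _).symm
    have e3 : ∏ i ∈ T ∆ U, d i = (∏ i ∈ T \ U, d i) * ∏ i ∈ U \ T, d i := by
      rw [symmDiff_def, Finset.sup_eq_union, Finset.prod_union]
      exact disjoint_sdiff_sdiff
    rw [e1, e2, e3]
    ring
  rw [mul_assoc, h1, ← mul_assoc, sf_mul_sq (mul_ne_zero hM (prod_ne hd _)) (prod_ne hd _)]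

/-- the symbol `(p / m)` -/
lemma jac_sf {p N : ℕ} (hN : N ≠ 0) (hp : p.Coprime N) :
    jacobiSym p (sf N) = jacobiSym p N := by
  obtain ⟨b, hb, h⟩ := sf_spec hN
  have h1 : p.Coprime b := by
    apply hp.coprime_dvd_right
    rw [h]
    exact (dvd_pow_self b two_ne_zero).mul_left _
  have hb' : NeZero b := ⟨hb⟩
  have hs' : NeZero (sf N) := ⟨sf_pos _⟩
  conv_rhs => rw [h]
  rw [jacobiSym.mul_right, jacobiSym.pow_right, jacobiSym.sq_one, mul_one]
  exact (Int.isCoprime_iff_gcd_eq_one.1 (Nat.isCoprime_iff_coprime.2 h1))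

end

end Pool.Agent.V8H1.MF
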