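import Pool.Agent.V8H1.MF.Gal
import Pool.Agent.H82R3.EK.Fiber

/-!
# Multiquadratic fields: splitting of the primes
-/

set_option autoImplicit false
set_option linter.unusedSectionVars false

open NumberField Module IsDedekindDomain Ideal

namespace Pool.Agent.V8H1.MF

open Pool.Agent.H921R2.TatePole Pool.Agent.H82R3.EK
open scoped symmDiff Pointwise NumberTheorySymbols

section
variable {F : Type} [Field F] [NumberField F] {n : ℕ} {d : Fin n → ℕ} {s : Fin n → F}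

lemma q4_one : Q4 1 := by
  intro p hp hd
  exact absurd (Nat.dvd_one.1 hd) hp.one_lt.ne'

lemma MQ.m4 (h : MQ F d s) (T : Finset (Fin n)) : (DD d 1 T) % 4 = 1 :=
  q4_mod (DD_ne _ _) (q4_DD one_ne_zero q4_one h.ne h.q4 T)

/-- an integer in a prime above `p` -/
lemma int_mem {p : ℕ} (hp : p.Prime) {P : Ideal (𝓞 F)} (hP : P.IsPrime) (hpP : ((p : ℕ) : 𝓞 F) ∈ P)
    (z : ℤ) : ((z : ℤ) : 𝓞 F) ∈ P ↔ (p : ℤ) ∣ z := by
  constructor
  · intro h
    by_contra hcon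
    have hcop : IsCoprime (p : ℤ) z := (Nat.prime_iff_prime_int.1 hp).coprime_iff_not_dvd.2 hcon
    obtain ⟨a, b, hab⟩ := hcop
    apply hP.ne_top
    rw [Ideal.eq_top_iff_one]
    have h3 : ((a : 𝓞 F) * ((p : ℕ) : 𝓞 F) + (b : 𝓞 F) * (z : 𝓞 F)) = 1 := by
      have := congrArg (Int.cast : ℤ → 𝓞 F) hab
      push_cast at this
      exact this
    rw [← h3]
    exact P.add_mem (P.mul_mem_left _ hpP) (P.mul_mem_left _ h)
  · rintro ⟨c, rfl⟩
    push_cast
    exact P.mul_mem_right _ hpP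

lemma mod4 {m : ℕ} (hm : m % 4 = 1) : 1 + 4 * (((m : ℤ) - 1) / 4) = m := by omega

/-- the inertia group fixes the unramified square roots -/
lemma claim1 (h : MQ F d s) {p : ℕ} (hp : p.Prime) {P : Ideal (𝓞 F)} (hP : P.IsPrime)
    (hpP : ((p : ℕ) : 𝓞 F) ∈ P) {T : Finset (Fin n)} (hT : ¬ p ∣ DD d 1 T) {σ : Gal(F/ℚ)}
    (hσ : ∀ x : 𝓞 F, σ • x - x ∈ P) : sgT s σ T = 1 := by
  by_contra hcon
  have h1 := (sgT_val σ T).resolve_left hcon
  obtain ⟨w, hw, hw2⟩ := exists_w h T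
  have h2 := hσ w
  rw [hw2 σ h1] at h2
  have h3 : ((((DD d 1 T : ℕ) : ℤ) : ℤ) : 𝓞 F) ∈ P := by
    rw [← mod4 (h.m4 T)]
    push_cast
    rw [show (((((DD d 1 T : ℕ) : ℤ) - 1) / 4 : ℤ) : 𝓞 F) = w ^ 2 - w from hw.symm]
    have e : 1 + 4 * (w ^ 2 - w) = (1 - w - w) * (1 - w - w) := by ring
    rw [e]
    exact P.mul_mem_left _ h2
  rw [int_mem hp hP hpP] at h3
  exact hT (by exact_mod_cast h3)

/-- the decomposition group fixes the split square roots -/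
lemma claim2 (h : MQ F d s) {p : ℕ} (hp : p.Prime) {P : Ideal (𝓞 F)} (hP : P.IsPrime)
    (hpP : ((p : ℕ) : 𝓞 F) ∈ P) {T : Finset (Fin n)} (hT : ¬ p ∣ DD d 1 T)
    (hr : Rt p (DD d 1 T)) {σ : Gal(F/ℚ)} (hσ : ∀ x ∈ P, σ • x ∈ P) : sgT s σ T = 1 := by
  by_contra hcon
  have h1 := (sgT_val σ T).resolve_left hcon
  obtain ⟨w, hw, hw2⟩ := exists_w h T
  obtain ⟨c, hc⟩ := hr
  have hc' : ((c ^ 2 - c - (((DD d 1 T : ℕ) : ℤ) - 1) / 4 : ℤ) : 𝓞 F) ∈ P :=
    (int_mem hp hP hpP _).2 hc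
  have hσc : σ • ((c : ℤ) : 𝓞 F) = ((c : ℤ) : 𝓞 F) := by
    have := smul_algebraMap (A := 𝓞 F) (R := ℤ) σ c
    simpa using this
  have hσ1 : σ • (1 : 𝓞 F) = 1 := smul_one σ
  have h3 : (w - c) * (w + c - 1) ∈ P := by
    have e : (w - (c : 𝓞 F)) * (w + c - 1) = -(((c ^ 2 - c - (((DD d 1 T : ℕ) : ℤ) - 1) / 4 : ℤ)) : 𝓞 F) := by
      have e2 : (((c ^ 2 - c - (((DD d 1 T : ℕ) : ℤ) - 1) / 4 : ℤ)) : 𝓞 F) =
        (c : 𝓞 F) ^ 2 - c - (((((DD d 1 T : ℕ) : ℤ) - 1) / 4 : ℤ) : 𝓞 F) := by push_cast; rfl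
      rw [e2, ← hw]
      ring
    rw [e]
    exact P.neg_mem hc'
  have h4 : (1 - 2 * (c : 𝓞 F)) ∈ P := by
    rcases hP.mem_or_mem h3 with h5 | h5
    · have h6 := hσ _ h5
      rw [smul_sub, hσc, hw2 σ h1] at h6
      have := P.add_mem h5 h6
      have e : w - (c : 𝓞 F) + (1 - w - c) = 1 - 2 * c := by ring
      rwa [e] at this
    · have h6 := hσ _ h5
      rw [smul_sub, smul_add, hσc, hσ1, hw2 σ h1] at h6
      have := P.neg_mem (P.add_mem h5 h6)
      have e : -(w + (c : 𝓞 F) - 1 + (1 - w + c - 1)) = 1 - 2 * c := by ring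
      rwa [e] at this
  have h7 : ((((DD d 1 T : ℕ) : ℤ) : ℤ) : 𝓞 F) ∈ P := by
    have e : ((((DD d 1 T : ℕ) : ℤ) : ℤ) : 𝓞 F) = (1 - 2 * (c : 𝓞 F)) * (1 - 2 * c) -
        4 * (((c ^ 2 - c - (((DD d 1 T : ℕ) : ℤ) - 1) / 4 : ℤ)) : 𝓞 F) := by
      conv_lhs => rw [← mod4 (h.m4 T)]
      push_cast
      ring
    rw [e]
    exact P.sub_mem (P.mul_mem_left _ h4) (P.mul_mem_left _ hc')
  rw [int_mem hp hP hpP] at h7
  exact hT (by exact_mod_cast h7)

/-- the residue fields of degree one -/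
lemma claim3 (h : MQ F d s) {p : ℕ} (hp : p.Prime) {P : Ideal (𝓞 F)} (hP : P.IsPrime)
    (hpP : ((p : ℕ) : 𝓞 F) ∈ P) (hcard : Nat.card (𝓞 F ⧸ P) = p) (T : Finset (Fin n)) :
    Rt p (DD d 1 T) := by
  obtain ⟨w, hw, -⟩ := exists_w h T
  have hpf : Fact p.Prime := ⟨hp⟩
  have hfin : Finite (𝓞 F ⧸ P) := by
    apply Nat.finite_of_card_ne_zero
    rw [hcard]
    exact hp.ne_zero
  have hch : CharP (𝓞 F ⧸ P) p := by
    refine ⟨fun x => ?_⟩
    have h1 : ((x : ℕ) : 𝓞 F ⧸ P) = Ideal.Quotient.mk P ((x : ℤ) : 𝓞 F) := by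
      push_cast
      rfl
    rw [h1, Ideal.Quotient.eq_zero_iff_mem, int_mem hp hP hpP]
    exact Int.natCast_dvd_natCast
  let f : ZMod p →+* 𝓞 F ⧸ P := ZMod.castHom (dvd_refl p) _
  have hinj : Function.Injective f := f.injective
  have hsur : Function.Surjective f := by
    have hb : Function.Bijective f := by
      rw [Nat.bijective_iff_injective_and_card]
      exact ⟨hinj, by rw [Nat.card_zmod, hcard]⟩
    exact hb.2
  obtain ⟨z, hz⟩ := hsur (Ideal.Quotient.mk P w)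
  obtain ⟨c, rfl⟩ := ZMod.intCast_surjective z
  refine ⟨c, ?_⟩
  rw [← int_mem hp hP hpP]
  have h2 : w - (c : 𝓞 F) ∈ P := by
    rw [← Ideal.Quotient.eq_zero_iff_mem, map_sub, ← hz, map_intCast, map_intCast, sub_self]
  have e : ((c ^ 2 - c - (((DD d 1 T : ℕ) : ℤ) - 1) / 4 : ℤ) : 𝓞 F) =
      (w - c) * (1 - w - c) := by
    have e2 : (((c ^ 2 - c - (((DD d 1 T : ℕ) : ℤ) - 1) / 4 : ℤ)) : 𝓞 F) =
        (c : 𝓞 F) ^ 2 - c - (((((DD d 1 T : ℕ) : ℤ) - 1) / 4 : ℤ) : 𝓞 F) := by push_cast; rfl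
    rw [e2, ← hw]
    ring
  rw [e]
  exact P.mul_mem_right _ h2

/-! ### the counts of the subsets -/

open Classical in
/-- the subsets with an unramified square root -/
noncomputable def AA (d : Fin n → ℕ) (p : ℕ) : Finset (Finset (Fin n)) :=
  Finset.univ.filter fun T => ¬ p ∣ DD d 1 T

open Classical in
/-- the subsets with a split square root -/
noncomputable def BB (d : Fin n → ℕ) (p : ℕ) : Finset (Finset (Fin n)) :=
  Finset.univ.filter fun T => ¬ p ∣ DD d 1 T ∧ J(p | DD d 1 T) = 1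

lemma mem_AA {p : ℕ} {T : Finset (Fin n)} : T ∈ AA d p ↔ ¬ p ∣ DD d 1 T := by
  classical
  unfold AA
  rw [Finset.mem_filter]
  simp

lemma mem_BB {p : ℕ} {T : Finset (Fin n)} :
    T ∈ BB d p ↔ ¬ p ∣ DD d 1 T ∧ J(p | DD d 1 T) = 1 := by
  classical
  unfold BB
  rw [Finset.mem_filter]
  simp

lemma DD_empty : DD d 1 ∅ = 1 := by
  unfold DD
  simp [sf]

lemma empty_BB {p : ℕ} (hp : p.Prime) : ∅ ∈ BB d p := by
  rw [mem_BB, DD_empty]
  refine ⟨fun h => hp.one_lt.ne' (Nat.dvd_one.1 h), ?_⟩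
  simp

lemma card_AA_all (h : MQ F d s) {p : ℕ} (hp : p.Prime) (hd : ∀ i, ¬ p ∣ d i) :
    (AA d p).card = 2 ^ n := by
  classical
  have : AA d p = Finset.univ := by
    ext T
    rw [mem_AA]
    simp only [Finset.mem_univ, iff_true]
    intro h1
    have h2 := h1.trans (sf_dvd (mul_ne_zero one_ne_zero (prod_ne h.ne T)))
    rw [one_mul, Prime.dvd_finsetProd_iff hp.prime] at h2
    obtain ⟨i, -, hi⟩ := h2
    exact hd i hi
  rw [this, Finset.card_univ, Fintype.card_finset, Fintype.card_fin]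

lemma DD_single (h : MQ F d s) (i : Fin n) : DD d 1 {i} = d i := by
  unfold DD
  rw [Finset.prod_singleton, one_mul, sf_self (h.sqf i)]

lemma card_AA_half (h : MQ F d s) {p : ℕ} (hp : p.Prime) {i : Fin n} (hd : p ∣ d i) :
    (AA d p).card * 2 = 2 ^ n := by
  classical
  have h1 : (AA d p).card = ((AA d p)ᶜ).card := by
    refine Finset.card_bij' (fun T _ => T ∆ {i}) (fun T _ => T ∆ {i}) ?_ ?_ ?_ ?_
    · intro T hT
      rw [Finset.mem_compl, mem_AA, not_not, dvd_symm one_ne_zero h.ne hp, DD_single h]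
      rw [mem_AA] at hT
      tauto
    · intro T hT
      rw [Finset.mem_compl, mem_AA, not_not] at hT
      rw [mem_AA, dvd_symm one_ne_zero h.ne hp, DD_single h]
      tauto
    · intro T _
      rw [symmDiff_assoc, symmDiff_self, symmDiff_bot]
    · intro T _
      rw [symmDiff_assoc, symmDiff_self, symmDiff_bot]
  have h2 := Finset.card_add_card_compl (AA d p)
  rw [Fintype.card_finset, Fintype.card_fin, ← h1] at h2
  omega

lemma card_BB (h : MQ F d s) {p : ℕ} (hp : p.Prime) {U : Finset (Fin n)} (hU : U ∈ AA d p)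
    (hU' : U ∉ BB d p) : (BB d p).card * 2 = (AA d p).card := by
  classical
  rw [mem_AA] at hU
  have hj : J(p | DD d 1 U) = -1 := by
    refine (jac_pm hp hU).resolve_left fun h1 => hU' (mem_BB.2 ⟨hU, h1⟩)
  have hsub : BB d p ⊆ AA d p := fun T hT => mem_AA.2 (mem_BB.1 hT).1
  have h1 : (BB d p).card = (AA d p \ BB d p).card := by
    refine Finset.card_bij' (fun T _ => T ∆ U) (fun T _ => T ∆ U) ?_ ?_ ?_ ?_
    · intro T hT
      rw [mem_BB] at hT
      rw [Finset.mem_sdiff, mem_AA, mem_BB, jac_symm one_ne_zero h.ne hp hT.1 hU, hT.2, hj]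
      refine ⟨?_, fun h2 => absurd h2.2 (by norm_num)⟩
      rw [dvd_symm one_ne_zero h.ne hp]
      have := hT.1
      tauto
    · intro T hT
      rw [Finset.mem_sdiff, mem_AA, mem_BB] at hT
      have h2 : J(p | DD d 1 T) = -1 := (jac_pm hp hT.1).resolve_left fun h2 => hT.2 ⟨hT.1, h2⟩
      rw [mem_BB, jac_symm one_ne_zero h.ne hp hT.1 hU, h2, hj]
      refine ⟨?_, by norm_num⟩
      rw [dvd_symm one_ne_zero h.ne hp]
      have := hT.1
      tauto
    · intro T _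
      rw [symmDiff_assoc, symmDiff_self, symmDiff_bot]
    · intro T _
      rw [symmDiff_assoc, symmDiff_self, symmDiff_bot]
  rw [Finset.card_sdiff_of_subset hsub] at h1
  have h2 := Finset.card_le_card hsub
  omega

end

end Pool.Agent.V8H1.MF
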