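import Pool.Agent.V8H1.MF.Sf

/-!
# The symbol `(p / m)` and the solutions of `c ^ 2 - c = (m - 1) / 4` modulo `p`
-/

set_option autoImplicit false

namespace Pool.Agent.V8H1.MF

open scoped NumberTheorySymbols symmDiff
open ZMod (χ₈)

/-- `c ^ 2 - c - (m - 1) / 4` has a root modulo `p` -/
def Rt (p m : ℕ) : Prop := ∃ c : ℤ, (p : ℤ) ∣ c ^ 2 - c - (m - 1) / 4

lemma rt_iff {p m : ℕ} (hp : p.Prime) (hm : m % 4 = 1) (hpm : ¬ p ∣ m) :
    Rt p m ↔ J(p | m) = 1 := by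
  obtain ⟨j, hj⟩ : ∃ j : ℕ, m = 1 + 4 * j := ⟨m / 4, by omega⟩
  have hj' : ((m : ℤ) - 1) / 4 = j := by
    rw [hj]; push_cast; omega
  have hodd : Odd m := Nat.odd_iff.2 (by omega)
  rcases hp.eq_two_or_odd' with rfl | hp2
  · rw [show ((2 : ℕ) : ℤ) = 2 from rfl, jacobiSym.at_two hodd, ZMod.χ₈_nat_mod_eight]
    have h1 : Rt 2 m ↔ 2 ∣ j := by
      unfold Rt
      rw [hj']
      constructor
      · rintro ⟨c, hc⟩
        have h2 : (2 : ℤ) ∣ c ^ 2 - c := by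
          rcases Int.even_or_odd c with ⟨k, rfl⟩ | ⟨k, rfl⟩
          · exact ⟨2 * k ^ 2 - k, by ring⟩
          · exact ⟨2 * k ^ 2 + k, by ring⟩
        have h3 : (2 : ℤ) ∣ (j : ℤ) := by
          have := dvd_sub h2 hc
          simpa using this
        exact_mod_cast h3
      · intro h
        refine ⟨0, ?_⟩
        have : (2 : ℤ) ∣ (j : ℤ) := by exact_mod_cast h
        simpa using this
    rw [h1]
    have h2 : m % 8 = 1 ∨ m % 8 = 5 := by omega
    rcases h2 with h2 | h2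
    · rw [h2]
      refine iff_of_true (by omega) (by decide)
    · rw [h2]
      refine iff_of_false (by omega) (by decide)
  · have hpf : Fact p.Prime := ⟨hp⟩
    rw [jacobiSym.quadratic_reciprocity_one_mod_four' hp2 hm, ← jacobiSym.legendreSym.to_jacobiSym]
    have hm0 : ((m : ℤ) : ZMod p) ≠ 0 := by
      intro h
      rw [Int.cast_natCast, ZMod.natCast_eq_zero_iff] at h
      exact hpm h
    rw [legendreSym.eq_one_iff p hm0]
    have h2 : (2 : ZMod p) ≠ 0 := by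
      intro h
      have h3 : ((2 : ℕ) : ZMod p) = 0 := by exact_mod_cast h
      rw [ZMod.natCast_eq_zero_iff] at h3
      have := Nat.le_of_dvd (by norm_num) h3
      have := hp.two_le
      have : p = 2 := by omega
      subst this
      exact absurd hp2 (by decide)
    unfold Rt
    rw [hj']
    have hmj : ((m : ℤ) : ZMod p) = 1 + 4 * (j : ZMod p) := by rw [hj]; push_cast; ring
    constructor
    · rintro ⟨c, hc⟩
      rw [← ZMod.intCast_zmod_eq_zero_iff_dvd] at hc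
      push_cast at hc
      refine ⟨2 * c - 1, ?_⟩
      rw [hmj]
      linear_combination -4 * hc
    · rintro ⟨y, hy⟩
      obtain ⟨c, hc⟩ := ZMod.intCast_surjective ((y + 1) / 2 : ZMod p)
      refine ⟨c, ?_⟩
      rw [← ZMod.intCast_zmod_eq_zero_iff_dvd]
      push_cast
      have h4 : (4 : ZMod p) ≠ 0 := by
        have : (4 : ZMod p) = 2 ^ 2 := by norm_num
        rw [this]
        exact pow_ne_zero 2 h2
      have h5 : (2 : ZMod p) * c - 1 = y := by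
        rw [hc]
        field_simp
        ring
      apply mul_left_cancel₀ h4
      rw [mul_zero]
      rw [hmj, ← h5] at hy
      linear_combination -hy

lemma jac_pm {p m : ℕ} (hp : p.Prime) (hpm : ¬ p ∣ m) : J(p | m) = 1 ∨ J(p | m) = -1 := by
  apply jacobiSym.eq_one_or_neg_one
  exact Int.isCoprime_iff_gcd_eq_one.1
    (Nat.isCoprime_iff_coprime.2 ((Nat.Prime.coprime_iff_not_dvd hp).2 hpm))

lemma jac_zero {p m : ℕ} (hp : p.Prime) (hm : m ≠ 0) (hpm : p ∣ m) : J(p | m) = 0 := by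
  have : NeZero m := ⟨hm⟩
  rw [jacobiSym.eq_zero_iff_not_coprime]
  intro h
  have h1 : Nat.Coprime p m := by
    have h2 : Int.gcd (p : ℤ) (m : ℤ) = 1 := h
    simpa using h2
  exact (Nat.Prime.coprime_iff_not_dvd hp).1 h1 hpm

section
variable {n : ℕ} {d : Fin n → ℕ}

/-- all the prime factors are `1` modulo `4` -/
def Q4 (m : ℕ) : Prop := ∀ p : ℕ, p.Prime → p ∣ m → p % 4 = 1

lemma q4_mod {m : ℕ} (hm : m ≠ 0) (h : Q4 m) : m % 4 = 1 := by
  induction m using Nat.recOnMul with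
  | zero => exact absurd rfl hm
  | one => rfl
  | prime p hp => exact h p hp dvd_rfl
  | mul a b iha ihb =>
    have ha : a ≠ 0 := left_ne_zero_of_mul hm
    have hb : b ≠ 0 := right_ne_zero_of_mul hm
    rw [Nat.mul_mod, iha ha (fun p hp hd => h p hp (hd.mul_right b)),
      ihb hb (fun p hp hd => h p hp (hd.mul_left a))]

lemma q4_mul {a b : ℕ} (ha : Q4 a) (hb : Q4 b) : Q4 (a * b) := fun p hp hd =>
  (hp.dvd_mul.1 hd).elim (ha p hp) (hb p hp)

lemma q4_prod (hd : ∀ i, Q4 (d i)) (T : Finset (Fin n)) : Q4 (∏ i ∈ T, d i) := by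
  intro p hp h
  obtain ⟨i, -, hi⟩ := (Prime.dvd_finsetProd_iff hp.prime _).1 h
  exact hd i p hp hi

lemma q4_DD {M : ℕ} (hM : M ≠ 0) (hM4 : Q4 M) (hd0 : ∀ i, d i ≠ 0) (hd : ∀ i, Q4 (d i))
    (T : Finset (Fin n)) : Q4 (DD d M T) := fun p hp h =>
  q4_mul hM4 (q4_prod hd T) p hp (h.trans (sf_dvd (mul_ne_zero hM (prod_ne hd0 T))))

lemma DD_ne (M : ℕ) (T : Finset (Fin n)) : DD d M T ≠ 0 := sf_pos _

/-- the parity of the exponent -/
lemma dvd_DD {M : ℕ} (hM : M ≠ 0) (hd0 : ∀ i, d i ≠ 0) {p : ℕ} (hp : p.Prime) (T : Finset (Fin n)) :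
    p ∣ DD d M T ↔ Odd (M.factorization p + ∑ i ∈ T, (d i).factorization p) := by
  unfold DD
  rw [dvd_sf hp, Nat.factorization_mul hM (prod_ne hd0 T),
    Nat.factorization_prod fun i _ => hd0 i]
  simp only [Finsupp.coe_add, Pi.add_apply, Finsupp.coe_finsetSum, Finset.sum_apply]

lemma odd_symm (f : Fin n → ℕ) (T U : Finset (Fin n)) :
    Even (∑ i ∈ T ∆ U, f i + (∑ i ∈ T, f i + ∑ i ∈ U, f i)) := by
  classical
  have e1 : ∑ i ∈ T, f i = ∑ i ∈ T \ U, f i + ∑ i ∈ T ∩ U, f i := by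
    rw [add_comm]
    exact (Finset.sum_inter_add_sum_sdiff T U _).symm
  have e2 : ∑ i ∈ U, f i = ∑ i ∈ U \ T, f i + ∑ i ∈ T ∩ U, f i := by
    rw [add_comm, Finset.inter_comm]
    exact (Finset.sum_inter_add_sum_sdiff U T _).symm
  have e3 : ∑ i ∈ T ∆ U, f i = ∑ i ∈ T \ U, f i + ∑ i ∈ U \ T, f i := by
    rw [symmDiff_def, Finset.sup_eq_union, Finset.sum_union]
    exact disjoint_sdiff_sdiff
  rw [e1, e2, e3]
  exact ⟨∑ i ∈ T \ U, f i + ∑ i ∈ U \ T, f i + ∑ i ∈ T ∩ U, f i, by ring⟩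

/-- divisibility is additive -/
lemma dvd_symm {M : ℕ} (hM : M ≠ 0) (hd0 : ∀ i, d i ≠ 0) {p : ℕ} (hp : p.Prime)
    (T U : Finset (Fin n)) :
    p ∣ DD d M (T ∆ U) ↔ ¬ (p ∣ DD d M T ↔ p ∣ DD d 1 U) := by
  rw [dvd_DD hM hd0 hp, dvd_DD hM hd0 hp, dvd_DD one_ne_zero hd0 hp, Nat.factorization_one]
  have h := odd_symm (fun i => (d i).factorization p) T U
  simp only [Finsupp.coe_zero, Pi.zero_apply, zero_add]
  rw [Nat.even_iff] at h
  simp only [Nat.odd_iff]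
  omega

/-- the symbol is multiplicative -/
lemma jac_symm {M : ℕ} (hM : M ≠ 0) (hd0 : ∀ i, d i ≠ 0) {p : ℕ} (hp : p.Prime)
    {T U : Finset (Fin n)} (hT : ¬ p ∣ DD d M T) (hU : ¬ p ∣ DD d 1 U) :
    J(p | DD d M (T ∆ U)) = J(p | DD d M T) * J(p | DD d 1 U) := by
  rw [DD_symm hM hd0]
  have h1 : NeZero (DD d M T) := ⟨DD_ne _ _⟩
  have h2 : NeZero (DD d 1 U) := ⟨DD_ne _ _⟩
  rw [jac_sf (mul_ne_zero (DD_ne _ _) (DD_ne _ _)), jacobiSym.mul_right]
  rw [Nat.Prime.coprime_iff_not_dvd hp, hp.dvd_mul]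
  tauto

end

end Pool.Agent.V8H1.MF
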